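import Pool.Agent.Helper21.Par.Hilb
import Pool.Agent.Helper21.AC0p.LinSys

/-!
Counting vectors of `ZMod q ^ n` by weight, and the number of classes of characters modulo small
combinations of the rows.
-/

namespace Pool.Agent.Helper21.Par

open scoped BigOperators Classical
open Pool.Agent.Helper21.AC0p

section Gen

variable {q n : ℕ} [hq : Fact q.Prime]

theorem pow_hamming (y : ℝ) (a : Fin n → ZMod q) :
    y ^ hammingNorm a = ∏ i, (if a i = 0 then (1 : ℝ) else y) := by
  rw [Finset.prod_ite]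
  simp only [Finset.prod_const, one_pow, one_mul]
  congr 1

theorem sum_block (y : ℝ) : ∑ c : ZMod q, (if c = 0 then (1 : ℝ) else y) = 1 + (q - 1) * y := by
  rw [Finset.sum_ite, Finset.sum_const, Finset.sum_const]
  have h1 : (Finset.univ.filter (fun c : ZMod q => c = 0)).card = 1 := by
    rw [Finset.card_eq_one]
    exact ⟨0, by ext c; simp⟩
  have h2 : (Finset.univ.filter (fun c : ZMod q => ¬ c = 0)).card = q - 1 := by
    have := Finset.card_filter_add_card_filter_not (s := (Finset.univ : Finset (ZMod q)))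
      (fun c => c = 0)
    rw [h1, Finset.card_univ, ZMod.card] at this
    omega
  rw [h1, h2]
  have := hq.out.two_le
  simp only [nsmul_eq_mul]
  rw [Nat.cast_sub (by omega)]
  push_cast
  ring

theorem sum_pow_hamming (y : ℝ) :
    ∑ a : Fin n → ZMod q, y ^ hammingNorm a = (1 + (q - 1) * y) ^ n := by
  have h : ∑ a : Fin n → ZMod q, ∏ i, (if a i = 0 then (1 : ℝ) else y) =
      ∏ _i : Fin n, ∑ c : ZMod q, (if c = 0 then (1 : ℝ) else y) := by
    rw [Finset.prod_univ_sum]
    simp only [Fintype.piFinset_univ]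
  rw [Finset.sum_congr rfl (fun a _ => pow_hamming y a), h]
  simp only [sum_block, Finset.prod_const, Finset.card_univ, Fintype.card_fin]

theorem pair_block {y : ℝ} (hy0 : 0 ≤ y) (hy1 : y ≤ 1) (b : ZMod q) :
    ∑ c : ZMod q, (if c = 0 then (1 : ℝ) else y) * (if c + b = 0 then (1 : ℝ) else y) ≤
      (1 + (q - 1) * y ^ 2) * (if b = 0 then 1 else q * y) := by
  have hq2 : (2 : ℝ) ≤ q := by exact_mod_cast hq.out.two_le
  by_cases hb : b = 0
  · subst hb
    simp only [add_zero, if_true, mul_one]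
    have : ∀ c : ZMod q, (if c = 0 then (1 : ℝ) else y) * (if c = 0 then (1 : ℝ) else y) =
        (if c = 0 then (1 : ℝ) else y ^ 2) := by
      intro c
      split_ifs <;> ring
    rw [Finset.sum_congr rfl (fun c _ => this c), sum_block]
  · rw [if_neg hb]
    have h1 : ∀ c : ZMod q, (if c = 0 then (1 : ℝ) else y) * (if c + b = 0 then (1 : ℝ) else y) ≤
        y := by
      intro c
      by_cases h0 : c = 0
      · subst h0
        rw [zero_add, if_neg hb, if_pos rfl, one_mul]
      · rw [if_neg h0]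
        split_ifs
        · rw [mul_one]
        · nlinarith
    calc ∑ c : ZMod q, (if c = 0 then (1 : ℝ) else y) * (if c + b = 0 then (1 : ℝ) else y)
        ≤ ∑ c : ZMod q, y := Finset.sum_le_sum (fun c _ => h1 c)
      _ = q * y := by rw [Finset.sum_const, Finset.card_univ, ZMod.card, nsmul_eq_mul]
      _ ≤ (1 + (q - 1) * y ^ 2) * (q * y) := by
          have h2 : 0 ≤ (q : ℝ) * y := by positivity
          have h3 : 0 ≤ ((q : ℝ) - 1) * y ^ 2 := by
            apply mul_nonneg _ (by positivity)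
            linarith
          nlinarith

theorem sum_pair {y : ℝ} (hy0 : 0 ≤ y) (hy1 : y ≤ 1) (v : Fin n → ZMod q) :
    ∑ a : Fin n → ZMod q, y ^ hammingNorm a * y ^ hammingNorm (a + v) ≤
      (1 + (q - 1) * y ^ 2) ^ n * (q * y) ^ hammingNorm v := by
  have hq2 : (2 : ℝ) ≤ q := by exact_mod_cast hq.out.two_le
  have h1 : ∀ a : Fin n → ZMod q, y ^ hammingNorm a * y ^ hammingNorm (a + v) =
      ∏ i, ((if a i = 0 then (1 : ℝ) else y) * (if a i + v i = 0 then (1 : ℝ) else y)) := by
    intro a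
    rw [pow_hamming, pow_hamming, ← Finset.prod_mul_distrib]
    rfl
  have h2 : ∑ a : Fin n → ZMod q,
      ∏ i, ((if a i = 0 then (1 : ℝ) else y) * (if a i + v i = 0 then (1 : ℝ) else y)) =
      ∏ i, ∑ c : ZMod q, ((if c = 0 then (1 : ℝ) else y) *
        (if c + v i = 0 then (1 : ℝ) else y)) := by
    rw [Finset.prod_univ_sum]
    simp only [Fintype.piFinset_univ]
  rw [Finset.sum_congr rfl (fun a _ => h1 a), h2]
  refine (Finset.prod_le_prod (fun i _ => ?_) (fun i _ => pair_block hy0 hy1 (v i))).trans ?_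
  · apply Finset.sum_nonneg
    intro c _
    apply mul_nonneg
    · split_ifs <;> linarith
    · split_ifs <;> linarith
  · rw [Finset.prod_mul_distrib, Finset.prod_const, Finset.card_univ, Fintype.card_fin,
      ← pow_hamming]

/-- Number of vectors of weight `t`. -/
noncomputable def Nw (q n t : ℕ) [NeZero q] : ℕ :=
  (Finset.univ.filter (fun a : Fin n → ZMod q => hammingNorm a = t)).card

theorem exists_weight {z : ℝ} (hz0 : 0 ≤ z) {T : ℕ}
    (hT : 2 * (1 + (q - 1) * (2 * z)) ^ n ≤ 2 ^ T) :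
    ∃ t ≤ T, (1 + (q - 1) * z) ^ n ≤ 2 * (T + 1) * ((Nw q n t : ℝ) * z ^ t) := by
  have hq2 : (2 : ℝ) ≤ q := by exact_mod_cast hq.out.two_le
  set B : ℝ := (1 + (q - 1) * z) ^ n with hB
  have hB1 : 1 ≤ B := by
    apply one_le_pow₀
    have : 0 ≤ ((q : ℝ) - 1) * z := mul_nonneg (by linarith) hz0
    linarith
  -- the tail
  have htail : ∑ a ∈ Finset.univ.filter (fun a : Fin n → ZMod q => T < hammingNorm a),
      z ^ hammingNorm a ≤ 1 / 2 := by
    have h1 : ∑ a ∈ Finset.univ.filter (fun a : Fin n → ZMod q => T < hammingNorm a),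
        z ^ hammingNorm a * 2 ^ T ≤ ∑ a : Fin n → ZMod q, (2 * z) ^ hammingNorm a := by
      refine le_trans (Finset.sum_le_sum (fun a ha => ?_))
        (Finset.sum_le_sum_of_subset_of_nonneg (Finset.filter_subset _ _)
          (fun a _ _ => by positivity))
      rw [mul_pow, mul_comm]
      apply mul_le_mul_of_nonneg_right _ (by positivity)
      exact pow_le_pow_right₀ (by norm_num) (Finset.mem_filter.1 ha).2.le
    rw [sum_pow_hamming, ← Finset.sum_mul] at h1
    have h2 : (0 : ℝ) < 2 ^ T := by positivity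
    by_contra hcon
    push Not at hcon
    nlinarith
  have hsplit : B = ∑ a ∈ Finset.univ.filter (fun a : Fin n → ZMod q => hammingNorm a ≤ T),
      z ^ hammingNorm a +
      ∑ a ∈ Finset.univ.filter (fun a : Fin n → ZMod q => T < hammingNorm a),
      z ^ hammingNorm a := by
    rw [hB, ← sum_pow_hamming]
    rw [← Finset.sum_filter_add_sum_filter_not Finset.univ
      (fun a : Fin n → ZMod q => hammingNorm a ≤ T)]
    simp only [not_le]
  have hlow : B / 2 ≤ ∑ a ∈ Finset.univ.filter (fun a : Fin n → ZMod q => hammingNorm a ≤ T),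
      z ^ hammingNorm a := by linarith
  have hfib : ∑ a ∈ Finset.univ.filter (fun a : Fin n → ZMod q => hammingNorm a ≤ T),
      z ^ hammingNorm a = ∑ t ∈ Finset.range (T + 1), (Nw q n t : ℝ) * z ^ t := by
    rw [← Finset.sum_fiberwise_of_maps_to (t := Finset.range (T + 1))
      (g := fun a : Fin n → ZMod q => hammingNorm a)
      (fun a ha => by rw [Finset.mem_range]; have := (Finset.mem_filter.1 ha).2; omega)]
    refine Finset.sum_congr rfl (fun t ht => ?_)
    rw [Finset.mem_range] at ht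
    have h3 : (Finset.univ.filter (fun a : Fin n → ZMod q => hammingNorm a ≤ T)).filter
        (fun a => hammingNorm a = t) =
        Finset.univ.filter (fun a : Fin n → ZMod q => hammingNorm a = t) := by
      ext a
      simp only [Finset.mem_filter, Finset.mem_univ, true_and]
      constructor
      · intro h; exact h.2
      · intro h; exact ⟨by omega, h⟩
    rw [h3, Finset.sum_congr rfl (fun a ha => by rw [(Finset.mem_filter.1 ha).2]),
      Finset.sum_const, nsmul_eq_mul]
    rfl
  by_contra hcon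
  push Not at hcon
  have h4 : ∑ t ∈ Finset.range (T + 1), (Nw q n t : ℝ) * z ^ t <
      ∑ t ∈ Finset.range (T + 1), B / (2 * (T + 1)) := by
    apply Finset.sum_lt_sum_of_nonempty ⟨0, by simp⟩
    intro t ht
    rw [Finset.mem_range] at ht
    have := hcon t (by omega)
    rw [lt_div_iff₀ (by positivity)]
    linarith
  rw [Finset.sum_const, Finset.card_range, nsmul_eq_mul] at h4
  have h5 : ((T + 1 : ℕ) : ℝ) * (B / (2 * (T + 1))) = B / 2 := by
    push_cast
    field_simp
  rw [h5] at h4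
  rw [hfib] at hlow
  linarith

end Gen

section Classes

variable {q n m : ℕ} [hq : Fact q.Prime] {M : Fin m → Fin n → ZMod q} {ρ w t : ℕ}

theorem comb_zero (M : Fin m → Fin n → ZMod q) : comb M 0 = 0 := by
  funext i; simp [comb]

theorem comb_neg (M : Fin m → Fin n → ZMod q) (u : Fin m → ZMod q) :
    comb M (-u) = - comb M u := by
  funext i; simp [comb]

/-- Two vectors of weight `t` are related when they differ by a small combination. -/
def crel (M : Fin m → Fin n → ZMod q) (ρ : ℕ) (a a' : Fin n → ZMod q) : Prop :=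
  ∃ u, hammingNorm u ≤ ρ ∧ a' = a + comb M u

/-- The setoid. -/
def cset (hE : Expands M ρ w) (ht : t ≤ w) : Setoid {a : Fin n → ZMod q // hammingNorm a = t} where
  r a a' := crel M ρ a.1 a'.1
  iseqv := by
    refine ⟨fun a => ⟨0, by simp, by rw [comb_zero, add_zero]⟩, ?_, ?_⟩
    · rintro a a' ⟨u, hu, h⟩
      exact ⟨-u, by rw [hamming_neg]; exact hu, by rw [h, comb_neg]; abel⟩
    · rintro a a' a'' ⟨u, hu, h⟩ ⟨u', hu', h'⟩
      refine ⟨u + u', ?_, by rw [h', h, comb_add]; abel⟩
      apply hE.exp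
      · exact (hamming_add_le _ _).trans (by omega)
      · have : comb M (u + u') = a''.1 - a.1 := by
          rw [h', h, comb_add]; abel
        rw [this]
        refine (hamming_sub_le _ _).trans ?_
        rw [a''.2, a.2]
        omega

/-- The number of related pairs, weighted. -/
theorem pairs_le (hE : Expands M ρ w) (ht : t ≤ w) {y x : ℝ} (hy0 : 0 ≤ y) (hy1 : y ≤ 1)
    (hx0 : 0 ≤ x) (hx : ∀ u, hammingNorm u ≤ ρ →
      ((q : ℝ) * y) ^ hammingNorm (comb M u) ≤ x ^ hammingNorm u) :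
    ((Finset.univ.filter (fun aa : {a : Fin n → ZMod q // hammingNorm a = t} ×
      {a : Fin n → ZMod q // hammingNorm a = t} => (cset hE ht).r aa.1 aa.2)).card : ℝ) *
        (y ^ 2) ^ t ≤ (1 + (q - 1) * y ^ 2) ^ n * (1 + (q - 1) * x) ^ m := by
  have hq2 : (2 : ℝ) ≤ q := by exact_mod_cast hq.out.two_le
  have hB0 : (0 : ℝ) ≤ (1 + (q - 1) * y ^ 2) ^ n := by
    apply pow_nonneg
    have : 0 ≤ ((q : ℝ) - 1) * y ^ 2 := mul_nonneg (by linarith) (by positivity)
    linarith
  -- the map to pairs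
  set U : Finset (Fin m → ZMod q) := Finset.univ.filter (fun u => hammingNorm u ≤ ρ) with hU
  set P : Finset ((Fin m → ZMod q) × (Fin n → ZMod q)) :=
    (U ×ˢ (Finset.univ : Finset (Fin n → ZMod q))).filter
      (fun ua => hammingNorm ua.2 = t ∧ hammingNorm (ua.2 + comb M ua.1) = t) with hP
  have h1 : (Finset.univ.filter (fun aa : {a : Fin n → ZMod q // hammingNorm a = t} ×
      {a : Fin n → ZMod q // hammingNorm a = t} => (cset hE ht).r aa.1 aa.2)).card ≤ P.card := by
    have hch : ∀ aa : {a : Fin n → ZMod q // hammingNorm a = t} ×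
        {a : Fin n → ZMod q // hammingNorm a = t}, ∃ u : Fin m → ZMod q,
        (cset hE ht).r aa.1 aa.2 → hammingNorm u ≤ ρ ∧ aa.2.1 = aa.1.1 + comb M u := by
      intro aa
      by_cases h : (cset hE ht).r aa.1 aa.2
      · obtain ⟨u, hu⟩ := h
        exact ⟨u, fun _ => hu⟩
      · exact ⟨0, fun h' => absurd h' h⟩
    choose uu huu using hch
    apply Finset.card_le_card_of_injOn (fun aa => (uu aa, aa.1.1))
    · intro aa haa
      rw [Finset.mem_coe, Finset.mem_filter] at haa
      obtain ⟨h2, h3⟩ := huu aa haa.2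
      rw [Finset.mem_coe, hP, Finset.mem_filter, Finset.mem_product, hU, Finset.mem_filter]
      refine ⟨⟨⟨Finset.mem_univ _, h2⟩, Finset.mem_univ _⟩, aa.1.2, ?_⟩
      simp only
      rw [← h3]
      exact aa.2.2
    · intro aa haa bb hbb heq
      rw [Finset.mem_coe, Finset.mem_filter] at haa hbb
      obtain ⟨_, h3⟩ := huu aa haa.2
      obtain ⟨_, h3'⟩ := huu bb hbb.2
      simp only [Prod.mk.injEq] at heq
      apply Prod.ext
      · exact Subtype.ext heq.2
      · apply Subtype.ext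
        rw [h3, h3', heq.1, heq.2]
  have h4 : (P.card : ℝ) * (y ^ 2) ^ t ≤ ∑ u ∈ U, ∑ a : Fin n → ZMod q,
      y ^ hammingNorm a * y ^ hammingNorm (a + comb M u) := by
    have h5 : (P.card : ℝ) * (y ^ 2) ^ t = ∑ ua ∈ P, y ^ hammingNorm ua.2 *
        y ^ hammingNorm (ua.2 + comb M ua.1) := by
      rw [← nsmul_eq_mul, ← Finset.sum_const]
      refine Finset.sum_congr rfl (fun ua hua => ?_)
      rw [hP, Finset.mem_filter] at hua
      rw [hua.2.1, hua.2.2, ← pow_mul, two_mul, pow_add]
    rw [h5, ← Finset.sum_product']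
    exact Finset.sum_le_sum_of_subset_of_nonneg (Finset.filter_subset _ _)
      (fun ua _ _ => by positivity)
  have h6 : ∑ u ∈ U, ∑ a : Fin n → ZMod q, y ^ hammingNorm a * y ^ hammingNorm (a + comb M u) ≤
      ∑ u ∈ U, (1 + (q - 1) * y ^ 2) ^ n * x ^ hammingNorm u := by
    apply Finset.sum_le_sum
    intro u hu
    refine (sum_pair hy0 hy1 (comb M u)).trans ?_
    exact mul_le_mul_of_nonneg_left (hx u (Finset.mem_filter.1 hu).2) hB0
  have h7 : ∑ u ∈ U, (1 + ((q : ℝ) - 1) * y ^ 2) ^ n * x ^ hammingNorm u ≤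
      (1 + (q - 1) * y ^ 2) ^ n * (1 + (q - 1) * x) ^ m := by
    rw [← Finset.mul_sum, ← sum_pow_hamming (n := m) x]
    apply mul_le_mul_of_nonneg_left _ hB0
    exact Finset.sum_le_sum_of_subset_of_nonneg (Finset.filter_subset _ _)
      (fun u _ _ => by positivity)
  have h8 : ((Finset.univ.filter (fun aa : {a : Fin n → ZMod q // hammingNorm a = t} ×
      {a : Fin n → ZMod q // hammingNorm a = t} => (cset hE ht).r aa.1 aa.2)).card : ℝ) *
        (y ^ 2) ^ t ≤ (P.card : ℝ) * (y ^ 2) ^ t := by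
    apply mul_le_mul_of_nonneg_right _ (by positivity)
    exact_mod_cast h1
  linarith

/-- The number of classes. -/
theorem classes_ge (hE : Expands M ρ w) (ht : t ≤ w) {y x : ℝ} (hy0 : 0 ≤ y) (hy1 : y ≤ 1)
    (hx0 : 0 ≤ x) (hx : ∀ u, hammingNorm u ≤ ρ →
      ((q : ℝ) * y) ^ hammingNorm (comb M u) ≤ x ^ hammingNorm u)
    (hxm : (1 + (q - 1) * x) ^ m ≤ 2) {T : ℕ}
    (hN : (1 + (q - 1) * y ^ 2) ^ n ≤ 2 * (T + 1) * ((Nw q n t : ℝ) * (y ^ 2) ^ t)) :
    (1 + (q - 1) * y ^ 2) ^ n ≤
      8 * (T + 1) ^ 2 * ((Fintype.card (Quotient (cset hE ht)) : ℝ) * (y ^ 2) ^ t) := by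
  have hq2 : (2 : ℝ) ≤ q := by exact_mod_cast hq.out.two_le
  set B : ℝ := (1 + (q - 1) * y ^ 2) ^ n with hB
  have hB0 : 0 < B := by
    apply pow_pos
    have : 0 ≤ ((q : ℝ) - 1) * y ^ 2 := mul_nonneg (by linarith) (by positivity)
    linarith
  set Q := Quotient (cset hE ht) with hQ
  set pr := (Finset.univ.filter (fun aa : {a : Fin n → ZMod q // hammingNorm a = t} ×
      {a : Fin n → ZMod q // hammingNorm a = t} => (cset hE ht).r aa.1 aa.2)) with hpr
  have hpairs := pairs_le hE ht hy0 hy1 hx0 hx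
  rw [← hpr, ← hB] at hpairs
  -- Cauchy-Schwarz
  set cl : Q → Finset {a : Fin n → ZMod q // hammingNorm a = t} :=
    fun c => Finset.univ.filter (fun a => Quotient.mk (cset hE ht) a = c) with hcl
  have h1 : (Nw q n t : ℕ) = ∑ c : Q, (cl c).card := by
    have h2 : Nw q n t = Fintype.card {a : Fin n → ZMod q // hammingNorm a = t} := by
      unfold Nw
      rw [Fintype.card_subtype]
    rw [h2, ← Finset.card_univ]
    rw [Finset.card_eq_sum_card_fiberwise (f := fun a => Quotient.mk (cset hE ht) a)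
      (t := (Finset.univ : Finset Q)) (fun a _ => Finset.mem_coe.2 (Finset.mem_univ _))]
  have h3 : pr.card = ∑ c : Q, (cl c).card ^ 2 := by
    have h4 : pr = Finset.univ.biUnion (fun c : Q => cl c ×ˢ cl c) := by
      ext ⟨a, a'⟩
      simp only [hpr, hcl, Finset.mem_filter, Finset.mem_univ, true_and, Finset.mem_biUnion,
        Finset.mem_product]
      constructor
      · intro h
        exact ⟨Quotient.mk _ a, rfl, (Quotient.sound h).symm⟩
      · rintro ⟨c, h5, h6⟩
        exact Quotient.exact (h5.trans h6.symm)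
    rw [h4, Finset.card_biUnion]
    · refine Finset.sum_congr rfl (fun c _ => ?_)
      rw [Finset.card_product, sq]
    · intro c _ c' _ hcc
      rw [Function.onFun, Finset.disjoint_left]
      rintro ⟨a, a'⟩ h5 h6
      simp only [hcl, Finset.mem_product, Finset.mem_filter, Finset.mem_univ, true_and] at h5 h6
      exact hcc (h5.1.symm.trans h6.1)
  have h5 : ((Nw q n t : ℝ)) ^ 2 ≤ (Fintype.card Q : ℝ) * pr.card := by
    have := sq_sum_le_card_mul_sum_sq (s := (Finset.univ : Finset Q))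
      (f := fun c => ((cl c).card : ℝ))
    rw [h1, h3]
    push_cast
    rw [Finset.card_univ] at this
    exact this
  have hz0 : 0 ≤ (y ^ 2) ^ t := by positivity
  set Z : ℝ := (y ^ 2) ^ t with hZ
  set N : ℝ := (Nw q n t : ℝ) with hNdef
  have hN0 : 0 ≤ N := Nat.cast_nonneg _
  have hT0 : (0 : ℝ) ≤ T := Nat.cast_nonneg _
  -- B^2 ≤ 4 (T+1)^2 N^2 Z^2
  have h6 : B * B ≤ (2 * (T + 1) * (N * Z)) * (2 * (T + 1) * (N * Z)) :=
    mul_le_mul hN hN hB0.le (by positivity)
  have h7 : (pr.card : ℝ) * Z ≤ B * 2 := by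
    refine hpairs.trans ?_
    exact mul_le_mul_of_nonneg_left hxm hB0.le
  have hQ0 : (0 : ℝ) ≤ Fintype.card Q := Nat.cast_nonneg _
  have h8 : N ^ 2 * Z ^ 2 ≤ (Fintype.card Q : ℝ) * Z * (B * 2) := by
    calc N ^ 2 * Z ^ 2 ≤ ((Fintype.card Q : ℝ) * pr.card) * Z ^ 2 :=
          mul_le_mul_of_nonneg_right h5 (by positivity)
      _ = (Fintype.card Q : ℝ) * Z * (pr.card * Z) := by ring
      _ ≤ (Fintype.card Q : ℝ) * Z * (B * 2) :=
          mul_le_mul_of_nonneg_left h7 (by positivity)
  have h9 : B * B ≤ B * (8 * (T + 1) ^ 2 * ((Fintype.card Q : ℝ) * Z)) := by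
    calc B * B ≤ (2 * (T + 1) * (N * Z)) * (2 * (T + 1) * (N * Z)) := h6
      _ = 4 * (T + 1) ^ 2 * (N ^ 2 * Z ^ 2) := by ring
      _ ≤ 4 * (T + 1) ^ 2 * ((Fintype.card Q : ℝ) * Z * (B * 2)) :=
          mul_le_mul_of_nonneg_left h8 (by positivity)
      _ = B * (8 * (T + 1) ^ 2 * ((Fintype.card Q : ℝ) * Z)) := by ring
  exact le_of_mul_le_mul_left h9 hB0

end Classes

end Pool.Agent.Helper21.Par
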