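import Pool.Agent.Helper21.Lin.SemDefs

/-!
Polynomial equations, height of formulas above a set of formulas, and the number of disjunctions
outside a set of formulas.
-/

namespace Pool.Agent.Helper21.AC0p

/-- `A` is a polynomial equation of degree at most `k` over `ZMod p`: for some polynomial `g` of
total degree at most `k`, `A` is true under an assignment `v` iff `g(v) = 0`. -/
def Fm.IsEqn (p k : ℕ) (A : Fm) : Prop :=
  ∃ g : MvPolynomial ℕ (ZMod p), g.totalDegree ≤ k ∧ ∀ v : ℕ → Bool,
    A.eval p v = true ↔ MvPolynomial.eval (fun i => ((v i).toNat : ZMod p)) g = 0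

open Classical in
/-- Nesting of disjunctions and `MOD_p`, when the formulas with the property `S` count as
atoms. -/
noncomputable def Fm.heightOver (S : Fm → Prop) : Fm → ℕ
  | .var _ => 0
  | .neg A => Fm.heightOver S A
  | .or k f => if S (Fm.or k f) then 0 else (Finset.univ.sup fun i => Fm.heightOver S (f i)) + 1
  | .mod k f => if S (Fm.mod k f) then 0 else
      (Finset.univ.sup fun i => Fm.heightOver S (f i)) + 1

/-- The number of distinct disjunctions without the property `S` that occur (as subformulas) in
`π`. -/
noncomputable def numOrNot (S : Fm → Prop) (π : List Fm) : ℕ :=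
  {B : Fm | (∃ (k : ℕ) (f : Fin k → Fm), B = Fm.or k f) ∧ ¬ S B ∧
    ∃ A ∈ π, Fm.IsSub B A}.ncard

end Pool.Agent.Helper21.AC0p
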