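import Pool.Agent.Helper21.Par.Count

/-!
A function of low degree that vanishes on the error sets and does not vanish in the
pseudo-solution.
-/

namespace Pool.Agent.Helper21.Par

open scoped BigOperators Classical
open Pool.Agent.Helper21.AC0p

section Exists

variable {q n m : ℕ} [hq : Fact q.Prime] {K : Type} [Field K] {ψ : AddChar (ZMod q) K}
variable {M : Fin m → Fin n → ZMod q} {b : Fin m → ZMod q} {ρ w t : ℕ}

/-- The combination of the representatives of the classes. -/
noncomputable def thetaL (ψ : AddChar (ZMod q) K) (hE : Expands M ρ w) (ht : t ≤ w) :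
    (Quotient (cset hE ht) → K) →ₗ[K] (chrFilt ψ n).LD t where
  toFun α := ⟨∑ c, α c • chr ψ (Quotient.out c).1, Submodule.sum_mem _ (fun c _ =>
    Submodule.smul_mem _ _ (chr_mem ψ (Quotient.out c).2.le))⟩
  map_add' := by
    intro α β
    apply Subtype.ext
    simp only [Pi.add_apply, add_smul, Finset.sum_add_distrib, Submodule.coe_add]
  map_smul' := by
    intro c α
    apply Subtype.ext
    simp only [Pi.smul_apply, smul_eq_mul, mul_smul, RingHom.id_apply, Submodule.coe_smul,
      Finset.smul_sum]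

theorem hat_theta (hψ : ψ.IsPrimitive) (hE : Expands M ρ w) (ht : t ≤ w)
    (α : Quotient (cset hE ht) → K) (a : Fin n → ZMod q) :
    hat ψ a ((thetaL ψ hE ht α : (chrFilt ψ n).LD t) : (Fin n → ZMod q) → K) =
      ∑ c, α c * (if a = (Quotient.out c).1 then (q : K) ^ n else 0) := by
  have h : ∀ s : Finset (Quotient (cset hE ht)),
      hat ψ a (∑ c ∈ s, α c • chr ψ (Quotient.out c).1) =
      ∑ c ∈ s, α c * (if a = (Quotient.out c).1 then (q : K) ^ n else 0) := by
    intro s
    induction s using Finset.induction_on with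
    | empty => rw [Finset.sum_empty, Finset.sum_empty, hat_zero]
    | insert c s hc ih =>
      rw [Finset.sum_insert hc, Finset.sum_insert hc, hat_add, hat_smul, ih, hat_chr ψ hψ]
  exact h Finset.univ

/-- A nonzero combination of representatives does not vanish in the pseudo-solution. -/
theorem theta_not_van (hψ : ψ.IsPrimitive) (hqK : (q : K) ≠ 0) (hE : Expands M ρ w)
    (ht : t ≤ w) (α : Quotient (cset hE ht) → K)
    (hv : Van ψ M b ρ w ((thetaL ψ hE ht α : (chrFilt ψ n).LD t) : (Fin n → ZMod q) → K)) :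
    α = 0 := by
  funext c
  have h0 := hv (Quotient.out c).1 (by rw [(Quotient.out c).2]; exact ht)
  unfold Phi at h0
  rw [Finset.sum_eq_single (0 : Fin m → ZMod q)] at h0
  · rw [comb_zero, add_zero, if_pos ⟨by simp, by rw [(Quotient.out c).2]; exact ht⟩] at h0
    have hd0 : dotb b (0 : Fin m → ZMod q) = 0 := by simp [dotb]
    rw [hd0, AddChar.map_zero_eq_one, one_mul, hat_theta hψ hE ht,
      Finset.sum_eq_single c] at h0
    · rw [if_pos rfl] at h0
      exact (mul_eq_zero.1 h0).resolve_right (pow_ne_zero n hqK)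
    · intro c' _ hc'
      rw [if_neg, mul_zero]
      intro h1
      apply hc'
      have h2 : Quotient.out c = Quotient.out c' := Subtype.ext h1
      rw [← Quotient.out_eq c, ← Quotient.out_eq c', h2]
    · intro h; exact absurd (Finset.mem_univ _) h
  · intro u _ hu
    split_ifs with hcond
    · rw [hat_theta hψ hE ht, Finset.sum_eq_zero, mul_zero]
      intro c' _
      rw [if_neg, mul_zero]
      intro h1
      -- the two representatives are related
      have h2 : (cset hE ht).r (Quotient.out c) (Quotient.out c') :=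
        ⟨u, hcond.1, h1.symm⟩
      have h3 : c = c' := by
        rw [← Quotient.out_eq c, ← Quotient.out_eq c']
        exact Quotient.sound h2
      subst h3
      have h4 : comb M u = 0 := by
        have := h1
        rw [add_eq_left] at this
        exact this
      exact hu (hE.inj u hcond.1 h4)
    · rfl
  · intro h; exact absurd (Finset.mem_univ _) h

/-- Existence from the dimension count. -/
theorem exists_P_dim (hψ : ψ.IsPrimitive) (hqK : (q : K) ≠ 0) (hE : Expands M ρ w)
    (ht : t ≤ w) {ι : Type} (s : Finset ι) (Er : ι → Set (Fin n → ZMod q))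
    (hcount : ∑ i ∈ s, HF ((chrFilt ψ n).LD t) (Er i) < Fintype.card (Quotient (cset hE ht))) :
    ∃ P ∈ (chrFilt ψ n).LD t, (∀ i ∈ s, ∀ x ∈ Er i, P x = 0) ∧ ¬ Van ψ M b ρ w P := by
  set V := (chrFilt ψ n).LD t with hV
  set E : Set (Fin n → ZMod q) := ⋃ i ∈ s, Er i with hEdef
  set U := evs V E with hU
  let L : (Quotient (cset hE ht) → K) →ₗ[K] Module.Dual K U :=
    (U.subtype.dualMap.comp (Module.Dual.eval K V)).comp (thetaL ψ hE ht)
  have hdim : Module.finrank K (Module.Dual K U) <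
      Module.finrank K (Quotient (cset hE ht) → K) := by
    have h1 : Module.finrank K (Module.Dual K U) = Module.finrank K U :=
      Subspace.dual_finrank_eq (K := K) (V := U)
    rw [h1, Module.finrank_fintype_fun_eq_card]
    exact lt_of_le_of_lt (HF_biUnion_le V s Er) hcount
  have hker := LinearMap.ker_ne_bot_of_finrank_lt (f := L) hdim
  obtain ⟨α, hα, hα0⟩ := (Submodule.ne_bot_iff _).1 hker
  refine ⟨(thetaL ψ hE ht α : V), (thetaL ψ hE ht α).2, ?_, ?_⟩
  · intro i hi x hx
    have hxE : x ∈ E := Set.mem_biUnion hi hx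
    have hxU : evx V x ∈ U := Submodule.subset_span ⟨x, hxE, rfl⟩
    rw [LinearMap.mem_ker] at hα
    have := congrArg (fun g : Module.Dual K U => g ⟨evx V x, hxU⟩) hα
    exact this
  · intro hv
    exact hα0 (theta_not_van hψ hqK hE ht α hv)

/-- The total weight of the Hilbert function. -/
theorem Hw_univ_le {z : ℝ} (hz0 : 0 ≤ z) (hz1 : z ≤ 1 / 2) :
    Hw (chrFilt ψ n) z Set.univ ≤ 2 * (1 + (q - 1) * z) ^ n := by
  have hz1' : z < 1 := by linarith
  have h1 : ∀ t : ℕ, (HF ((chrFilt ψ n).LD t) Set.univ : ℝ) ≤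
      ∑ a : Fin n → ZMod q, if hammingNorm a ≤ t then (1 : ℝ) else 0 := by
    intro t
    have h2 : HF ((chrFilt ψ n).LD t) Set.univ ≤
        (Finset.univ.filter (fun a : Fin n → ZMod q => hammingNorm a ≤ t)).card := by
      refine (HF_le_finrank _ _).trans ?_
      have h3 : (chrFilt ψ n).LD t = Submodule.span K
          (((Finset.univ.filter (fun a : Fin n → ZMod q => hammingNorm a ≤ t)).image
            (fun a => chr ψ a) : Finset ((Fin n → ZMod q) → K)) :
              Set ((Fin n → ZMod q) → K)) := by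
        change Submodule.span K _ = _
        congr 1
        ext f
        simp only [Set.mem_ofPred_eq, Finset.coe_image, Finset.coe_filter, Finset.mem_univ,
          true_and, Set.mem_image]
        constructor
        · rintro ⟨a, ha, rfl⟩; exact ⟨a, ha, rfl⟩
        · rintro ⟨a, ha, rfl⟩; exact ⟨a, ha, rfl⟩
      rw [h3]
      refine (finrank_span_finset_le_card _).trans ?_
      exact Finset.card_image_le
    have h4 : ((Finset.univ.filter
        (fun a : Fin n → ZMod q => hammingNorm a ≤ t)).card : ℝ) =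
        ∑ a : Fin n → ZMod q, if hammingNorm a ≤ t then (1 : ℝ) else 0 := by
      rw [Finset.card_eq_sum_ones, Finset.sum_filter]
      push_cast
      rfl
    rw [← h4]
    exact_mod_cast h2
  have hgeo : ∀ a : Fin n → ZMod q, HasSum
      (fun t : ℕ => z ^ t * (if hammingNorm a ≤ t then (1 : ℝ) else 0))
      (z ^ hammingNorm a * (1 - z)⁻¹) := by
    intro a
    have hg := hasSum_geometric_of_lt_one hz0 hz1'
    have h5 : HasSum (fun t : ℕ => z ^ (t + hammingNorm a) *
        (if hammingNorm a ≤ t + hammingNorm a then (1 : ℝ) else 0))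
        (z ^ hammingNorm a * (1 - z)⁻¹) := by
      have h6 := hg.mul_left (z ^ hammingNorm a)
      refine h6.congr_fun ?_
      intro t
      rw [if_pos (Nat.le_add_left _ _), pow_add]
      ring
    have h5' := (hasSum_nat_add_iff (f := fun t : ℕ => z ^ t *
      (if hammingNorm a ≤ t then (1 : ℝ) else 0)) (hammingNorm a)).1 h5
    have h6 : ∑ i ∈ Finset.range (hammingNorm a), z ^ i *
        (if hammingNorm a ≤ i then (1 : ℝ) else 0) = 0 := by
      apply Finset.sum_eq_zero
      intro i hi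
      rw [Finset.mem_range] at hi
      rw [if_neg (by omega), mul_zero]
    rw [h6, add_zero] at h5'
    exact h5'
  have hsum : HasSum (fun t : ℕ => ∑ a : Fin n → ZMod q,
      z ^ t * (if hammingNorm a ≤ t then (1 : ℝ) else 0))
      (∑ a : Fin n → ZMod q, z ^ hammingNorm a * (1 - z)⁻¹) :=
    hasSum_sum (fun a _ => hgeo a)
  unfold Hw
  have h7 : ∑' t : ℕ, z ^ t * (HF ((chrFilt ψ n).LD t) Set.univ : ℝ) ≤
      ∑' t : ℕ, ∑ a : Fin n → ZMod q, z ^ t * (if hammingNorm a ≤ t then (1 : ℝ) else 0) := by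
    refine Summable.tsum_le_tsum (fun t => ?_) (summable_Hw hz0 hz1' Set.univ) hsum.summable
    rw [← Finset.mul_sum]
    exact mul_le_mul_of_nonneg_left (h1 t) (by positivity)
  refine h7.trans ?_
  rw [hsum.tsum_eq, ← Finset.sum_mul, sum_pow_hamming]
  have h8 : (1 - z)⁻¹ ≤ 2 := by
    rw [inv_le_comm₀ (by linarith) (by norm_num)]
    linarith
  have hq2 : (2 : ℝ) ≤ q := by exact_mod_cast hq.out.two_le
  have h9 : 0 ≤ (1 + ((q : ℝ) - 1) * z) ^ n := by
    apply pow_nonneg
    have : 0 ≤ ((q : ℝ) - 1) * z := mul_nonneg (by linarith) hz0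
    linarith
  calc (1 + ((q : ℝ) - 1) * z) ^ n * (1 - z)⁻¹ ≤ (1 + ((q : ℝ) - 1) * z) ^ n * 2 :=
        mul_le_mul_of_nonneg_left h8 h9
    _ = 2 * (1 + ((q : ℝ) - 1) * z) ^ n := by ring

/-- The main existence statement. -/
theorem exists_P (hψ : ψ.IsPrimitive) (hqK : (q : K) ≠ 0) (hE : Expands M ρ w) {T : ℕ}
    (hTw : T ≤ w) {y x : ℝ} (hy0 : 0 < y) (hy1 : y ^ 2 ≤ 1 / 2)
    (hT : 2 * (1 + (q - 1) * (2 * y ^ 2)) ^ n ≤ 2 ^ T)
    (hx0 : 0 ≤ x) (hx : ∀ u, hammingNorm u ≤ ρ →
      ((q : ℝ) * y) ^ hammingNorm (comb M u) ≤ x ^ hammingNorm u)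
    (hxm : (1 + (q - 1) * x) ^ m ≤ 2)
    {ι : Type} (s : Finset ι) (Er : ι → Set (Fin n → ZMod q)) {δ : ℝ}
    (hEr : ∀ i ∈ s, Hw (chrFilt ψ n) (y ^ 2) (Er i) ≤
      δ * Hw (chrFilt ψ n) (y ^ 2) Set.univ) (hδ : 0 ≤ δ)
    (hcount : 16 * (T + 1) ^ 2 * (s.card * δ) < 1) :
    ∃ P ∈ (chrFilt ψ n).LD T, (∀ i ∈ s, ∀ x ∈ Er i, P x = 0) ∧ ¬ Van ψ M b ρ w P := by
  have hq2 : (2 : ℝ) ≤ q := by exact_mod_cast hq.out.two_le
  have hy1' : y ≤ 1 := by
    by_contra hcon
    push Not at hcon
    nlinarith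
  obtain ⟨t, htT, hN⟩ := exists_weight (q := q) (n := n) (z := y ^ 2) (by positivity) hT
  have ht : t ≤ w := htT.trans hTw
  have hcl := classes_ge (T := T) hE ht hy0.le hy1' hx0 hx hxm hN
  set B : ℝ := (1 + (q - 1) * y ^ 2) ^ n with hB
  have hB0 : 0 < B := by
    apply pow_pos
    have : 0 ≤ ((q : ℝ) - 1) * y ^ 2 := mul_nonneg (by linarith) (by positivity)
    linarith
  have hz0 : 0 < (y ^ 2) ^ t := by positivity
  have hdim : ∑ i ∈ s, HF ((chrFilt ψ n).LD t) (Er i) <
      Fintype.card (Quotient (cset hE ht)) := by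
    have h1 : ∀ i ∈ s, (y ^ 2) ^ t * (HF ((chrFilt ψ n).LD t) (Er i) : ℝ) ≤ δ * (2 * B) := by
      intro i hi
      refine (HF_le_Hw (by positivity) (by linarith) (Er i) t).trans ((hEr i hi).trans ?_)
      exact mul_le_mul_of_nonneg_left (Hw_univ_le (by positivity) hy1) hδ
    have h2 : (y ^ 2) ^ t * ((∑ i ∈ s, HF ((chrFilt ψ n).LD t) (Er i) : ℕ) : ℝ) ≤
        s.card * (δ * (2 * B)) := by
      push_cast
      rw [Finset.mul_sum]
      refine (Finset.sum_le_sum h1).trans ?_
      rw [Finset.sum_const, nsmul_eq_mul]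
    have h3 : (y ^ 2) ^ t * ((∑ i ∈ s, HF ((chrFilt ψ n).LD t) (Er i) : ℕ) : ℝ) <
        (y ^ 2) ^ t * (Fintype.card (Quotient (cset hE ht)) : ℝ) := by
      have hT0 : (0 : ℝ) < 8 * ((T : ℝ) + 1) ^ 2 := by positivity
      have h4 : 8 * ((T : ℝ) + 1) ^ 2 * (s.card * (δ * (2 * B))) < B := by
        calc 8 * ((T : ℝ) + 1) ^ 2 * (s.card * (δ * (2 * B))) =
              (16 * (T + 1) ^ 2 * (s.card * δ)) * B := by ring
          _ < 1 * B := mul_lt_mul_of_pos_right hcount hB0
          _ = B := one_mul B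
      have h5 : 8 * ((T : ℝ) + 1) ^ 2 *
          ((y ^ 2) ^ t * ((∑ i ∈ s, HF ((chrFilt ψ n).LD t) (Er i) : ℕ) : ℝ)) <
          8 * ((T : ℝ) + 1) ^ 2 *
            ((Fintype.card (Quotient (cset hE ht)) : ℝ) * (y ^ 2) ^ t) := by
        calc 8 * ((T : ℝ) + 1) ^ 2 *
          ((y ^ 2) ^ t * ((∑ i ∈ s, HF ((chrFilt ψ n).LD t) (Er i) : ℕ) : ℝ))
            ≤ 8 * ((T : ℝ) + 1) ^ 2 * (s.card * (δ * (2 * B))) :=
              mul_le_mul_of_nonneg_left h2 hT0.le
          _ < B := h4
          _ ≤ _ := hcl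
      have h6 := lt_of_mul_lt_mul_left h5 hT0.le
      rw [mul_comm ((y ^ 2) ^ t) (Fintype.card (Quotient (cset hE ht)) : ℝ)]
      exact h6
    have h7 := lt_of_mul_lt_mul_left h3 hz0.le
    exact_mod_cast h7
  obtain ⟨P, hP, hP0, hPv⟩ := exists_P_dim (b := b) hψ hqK hE ht s Er hdim
  exact ⟨P, (chrFilt ψ n).mono htT hP, hP0, hPv⟩

end Exists

end Pool.Agent.Helper21.Par
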