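import Pool.Agent.Helper21.Par.Main
import Pool.Agent.Helper21.Lin.LinFinal

/-!
The choice of the parameters.
-/

namespace Pool.Agent.Helper21.Par

open scoped BigOperators Classical
open Pool.Agent.Helper21.AC0p Pool.Agent.Helper21.Lin

/-- The constant. -/
def cst (p a h : ℕ) : ℕ := (8 * ((a + 2) * p ^ (h + 1))) * 2 ^ (45 * (p + 1))

theorem one_le_cst1 {p a h : ℕ} (hp : 2 ≤ p) : 16 ≤ 8 * ((a + 2) * p ^ (h + 1)) := by
  have h17 : 1 ≤ p ^ (h + 1) := Nat.one_le_pow _ _ (by omega)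
  have h18 : 2 * 1 ≤ (a + 2) * p ^ (h + 1) := Nat.mul_le_mul (Nat.le_add_left 2 a) h17
  omega

theorem cst_ge {p a h : ℕ} (hp : 2 ≤ p) : 16 ≤ cst p a h := by
  unfold cst
  exact (one_le_cst1 hp).trans (Nat.le_mul_of_pos_right _ (Nat.pow_pos (by norm_num)))

theorem cst_pow {p a h k : ℕ} :
    (8 * ((a + 2) * p ^ (h + 1))) * 2 ^ (45 * (p + 1) * (k + 1)) ≤ cst p a h ^ (k + 1) := by
  unfold cst
  rw [mul_pow, ← pow_mul]
  exact Nat.mul_le_mul_right _ (Nat.le_self_pow (Nat.succ_ne_zero k) _)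

theorem two_pow_ge {p k : ℕ} (hp : 2 ≤ p) :
    2 ^ 50 * (p * (k + 1)) ≤ 2 ^ (45 * (p + 1) * (k + 1)) := by
  have h1 : p * (k + 1) < 2 ^ (p * (k + 1)) := Nat.lt_two_pow_self
  have h2 : 50 + p * (k + 1) ≤ 45 * (p + 1) * (k + 1) := by
    have h3 : 1 ≤ k + 1 := by omega
    have h4 : 3 * 1 ≤ (p + 1) * (k + 1) := Nat.mul_le_mul (by omega) h3
    have h5 : p * (k + 1) ≤ (p + 1) * (k + 1) := Nat.mul_le_mul_right _ (by omega)
    have h6 : 45 * (p + 1) * (k + 1) = 45 * ((p + 1) * (k + 1)) := by ring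
    omega
  calc 2 ^ 50 * (p * (k + 1)) ≤ 2 ^ 50 * 2 ^ (p * (k + 1)) := Nat.mul_le_mul_left _ h1.le
    _ = 2 ^ (50 + p * (k + 1)) := by rw [pow_add]
    _ ≤ _ := Nat.pow_le_pow_right (by norm_num) h2

theorem tail_cond {q n : ℕ} (hq2 : 2 ≤ q) (hq3 : q ≤ 3) :
    2 * (1 + ((q : ℝ) - 1) * (2 * ((1 / 2 : ℝ) ^ 22) ^ 2)) ^ n ≤
      (2 : ℝ) ^ (n / 2 ^ 41 + 2) := by
  have hq2' : (2 : ℝ) ≤ q := by exact_mod_cast hq2
  have hq3' : (q : ℝ) ≤ 3 := by exact_mod_cast hq3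
  set m := n / 2 ^ 41 with hm
  have h1 : (n : ℝ) / 2 ^ 41 ≤ m + 1 := by
    have : n < (m + 1) * 2 ^ 41 := by
      have := Nat.lt_div_mul_add (a := n) (b := 2 ^ 41) (by norm_num)
      rw [← hm] at this
      calc n < m * 2 ^ 41 + 2 ^ 41 := this
        _ = (m + 1) * 2 ^ 41 := by ring
    rw [div_le_iff₀ (by norm_num)]
    exact_mod_cast this.le
  have h2 : 1 + ((q : ℝ) - 1) * (2 * ((1 / 2 : ℝ) ^ 22) ^ 2) ≤ Real.exp (1 / 2 ^ 42) := by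
    have h3 := Real.add_one_le_exp ((1 : ℝ) / 2 ^ 42)
    have h4 : ((q : ℝ) - 1) * (2 * ((1 / 2 : ℝ) ^ 22) ^ 2) ≤ 1 / 2 ^ 42 := by
      have h5 : ((q : ℝ) - 1) * (2 * ((1 / 2 : ℝ) ^ 22) ^ 2) ≤
          2 * (2 * ((1 / 2 : ℝ) ^ 22) ^ 2) :=
        mul_le_mul_of_nonneg_right (by linarith) (by positivity)
      refine h5.trans (le_of_eq ?_)
      norm_num
    linarith
  have h0 : 0 ≤ 1 + ((q : ℝ) - 1) * (2 * ((1 / 2 : ℝ) ^ 22) ^ 2) := by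
    have : 0 ≤ ((q : ℝ) - 1) * (2 * ((1 / 2 : ℝ) ^ 22) ^ 2) :=
      mul_nonneg (by linarith) (by positivity)
    linarith
  have h6 : (1 + ((q : ℝ) - 1) * (2 * ((1 / 2 : ℝ) ^ 22) ^ 2)) ^ n ≤ (2 : ℝ) ^ (m + 1) := by
    calc (1 + ((q : ℝ) - 1) * (2 * ((1 / 2 : ℝ) ^ 22) ^ 2)) ^ n
        ≤ (Real.exp (1 / 2 ^ 42)) ^ n := pow_le_pow_left₀ h0 h2 n
      _ = Real.exp (n * (1 / 2 ^ 42)) := by rw [← Real.exp_nat_mul]
      _ ≤ Real.exp (Real.log 2 * ((m + 1 : ℕ) : ℝ)) := by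
          apply Real.exp_le_exp.2
          have h7 : (1 / 2 : ℝ) ≤ Real.log 2 := by
            have := Real.log_two_gt_d9; linarith
          have h8 : (n : ℝ) * (1 / 2 ^ 42) = (n / 2 ^ 41) * (1 / 2) := by ring
          rw [h8]
          have h9 : ((m + 1 : ℕ) : ℝ) = m + 1 := by push_cast; rfl
          rw [h9]
          have h10 : (0 : ℝ) ≤ m + 1 := by positivity
          nlinarith
      _ = (2 : ℝ) ^ (m + 1) := by
          rw [← Real.rpow_natCast 2 (m + 1), Real.rpow_def_of_pos (by norm_num)]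
  calc 2 * (1 + ((q : ℝ) - 1) * (2 * ((1 / 2 : ℝ) ^ 22) ^ 2)) ^ n ≤ 2 * (2 : ℝ) ^ (m + 1) :=
        mul_le_mul_of_nonneg_left h6 (by norm_num)
    _ = (2 : ℝ) ^ (m + 2) := by rw [pow_succ (2 : ℝ) (m + 1)]; ring

theorem nat_part {n n1 D ℓ k t h a p : ℕ} (hp : 2 ≤ p)
    (hD : D ≤ p * (k + 1)) (hnn1 : n ≤ 4 * n1)
    (hℓ : n1 ≤ 2 ^ 38 * (16 * ((a + 2) * (t + p) ^ h * (p * D) * ℓ))) :
    16 * n * 2 ^ (44 * D) ≤ ℓ * (cst p a h ^ (k + 1) * (t + 1) ^ h) := by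
  have h2 : n ≤ 4 * (2 ^ 38 * (16 * ((a + 2) * (t + p) ^ h * (p * D) * ℓ))) :=
    hnn1.trans (Nat.mul_le_mul_left 4 hℓ)
  have h3 : (t + p) ^ h ≤ p ^ h * (t + 1) ^ h := by
    rw [← mul_pow]
    apply Nat.pow_le_pow_left
    have : 1 * t ≤ p * t := Nat.mul_le_mul_right _ (by omega)
    rw [Nat.mul_add]
    omega
  have h4 : D < 2 ^ D := Nat.lt_two_pow_self
  have h5 : (8 * ((a + 2) * p ^ (h + 1))) * 2 ^ (45 * (p + 1) * (k + 1)) ≤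
      cst p a h ^ (k + 1) := cst_pow
  generalize cst p a h ^ (k + 1) = CC at h5 ⊢
  have h6 : 2 ^ 45 * (2 ^ D * 2 ^ (44 * D)) ≤ 2 ^ (45 * (p + 1) * (k + 1)) := by
    rw [← pow_add, ← pow_add]
    apply Nat.pow_le_pow_right (by norm_num)
    have h7 : 45 * D ≤ 45 * (p * (k + 1)) := Nat.mul_le_mul_left _ hD
    have h8 : 45 * (p + 1) * (k + 1) = 45 * (p * (k + 1)) + 45 * (k + 1) := by ring
    omega
  generalize 2 ^ (45 * (p + 1) * (k + 1)) = EE at h5 h6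
  generalize 2 ^ (44 * D) = Ep at h6 ⊢
  calc 16 * n * Ep
      ≤ 16 * (4 * (2 ^ 38 * (16 * ((a + 2) * (t + p) ^ h * (p * D) * ℓ)))) * Ep := by
        apply Nat.mul_le_mul_right
        exact Nat.mul_le_mul_left _ h2
    _ = 2 ^ 48 * ((a + 2) * (t + p) ^ h * (p * D) * ℓ) * Ep := by ring
    _ ≤ 2 ^ 48 * ((a + 2) * (p ^ h * (t + 1) ^ h) * (p * 2 ^ D) * ℓ) * Ep := by
        apply Nat.mul_le_mul_right
        apply Nat.mul_le_mul_left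
        apply Nat.mul_le_mul_right
        apply Nat.mul_le_mul
        · exact Nat.mul_le_mul_left _ h3
        · exact Nat.mul_le_mul_left _ h4.le
    _ = ℓ * (((8 * ((a + 2) * p ^ (h + 1))) * (2 ^ 45 * (2 ^ D * Ep))) *
          (t + 1) ^ h) := by ring
    _ ≤ ℓ * (CC * (t + 1) ^ h) := by
        apply Nat.mul_le_mul_left
        apply Nat.mul_le_mul_right
        refine le_trans ?_ h5
        exact Nat.mul_le_mul_left _ h6

theorem zeta_eq (D : ℕ) : (((1 / 2 : ℝ) ^ 22) ^ 2) ^ D = 1 / ((2 ^ (44 * D) : ℕ) : ℝ) := by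
  have h1 : (((1 / 2 : ℝ) ^ 22) ^ 2) = (1 / 2 : ℝ) ^ 44 := by rw [← pow_mul]
  rw [h1, ← pow_mul, one_div_pow]
  push_cast
  rfl

theorem real_part {n ℓ Q s lg : ℕ} {ζ T Ep : ℝ} (hζ1 : ζ ≤ 1) (hEp : 0 < Ep)
    (hζ : ζ = 1 / Ep) (hQ : 0 < Q) (h1 : (16 : ℝ) * n * Ep ≤ ℓ * Q)
    (hlog : (lg : ℝ) * Q ≤ n) (hnlog : (n : ℝ) ≤ 2 ^ lg) (hn16 : 16 ≤ n) (hT0 : 0 ≤ T)
    (hTn : T + 1 ≤ n)
    (hcore : 1 ≤ 16 * (T + 1) ^ 2 * (s * (1 - ζ / 2) ^ ℓ)) :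
    2 ^ (n / Q) ≤ s := by
  have hQ' : (0 : ℝ) < Q := by exact_mod_cast hQ
  set N0 := n / Q with hN0
  set R : ℝ := (n : ℝ) / Q with hR
  have hN0R : (N0 : ℝ) ≤ R := by rw [hN0, hR]; exact Nat.cast_div_le
  have hlogR : (lg : ℝ) ≤ R := by
    rw [hR, le_div_iff₀ hQ']
    exact hlog
  set Xe : ℝ := ζ * ℓ / 2 with hXe
  have hX : 8 * R ≤ Xe := by
    rw [hR, hXe, hζ]
    have h11 : 8 * ((n : ℝ) / Q) = (16 * n * Ep) / (Q * (2 * Ep)) := by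
      field_simp
      ring
    have h12 : 1 / (Ep : ℝ) * (ℓ : ℝ) / 2 = (ℓ * Q) / (Q * (2 * Ep)) := by
      field_simp
    rw [h11, h12]
    exact div_le_div_of_nonneg_right h1 (mul_pos hQ' (mul_pos two_pos hEp)).le
  have hdec : (1 - ζ / 2) ^ ℓ ≤ Real.exp (-Xe) := by
    have h1 : 1 - ζ / 2 ≤ Real.exp (-(ζ / 2)) := by
      have := Real.add_one_le_exp (-(ζ / 2)); linarith
    have h2 : 0 ≤ 1 - ζ / 2 := by linarith
    calc (1 - ζ / 2) ^ ℓ ≤ (Real.exp (-(ζ / 2))) ^ ℓ := pow_le_pow_left₀ h2 h1 ℓ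
      _ = Real.exp (ℓ * (-(ζ / 2))) := by rw [← Real.exp_nat_mul]
      _ = Real.exp (-Xe) := by rw [hXe]; congr 1; ring
  have hs0 : (0 : ℝ) ≤ s := Nat.cast_nonneg s
  have hnbig : (16 : ℝ) ≤ n := by exact_mod_cast hn16
  have h1 : Real.exp Xe ≤ 16 * (n : ℝ) ^ 2 * s := by
    have h2 : 1 ≤ 16 * (T + 1) ^ 2 * (s * Real.exp (-Xe)) := by
      refine hcore.trans ?_
      apply mul_le_mul_of_nonneg_left _ (by positivity)
      exact mul_le_mul_of_nonneg_left hdec hs0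
    have h3 : (T + 1) ^ 2 ≤ (n : ℝ) ^ 2 := pow_le_pow_left₀ (by positivity) hTn 2
    have h4 : 1 ≤ 16 * (n : ℝ) ^ 2 * (s * Real.exp (-Xe)) := by
      refine h2.trans ?_
      apply mul_le_mul_of_nonneg_right _ (by positivity)
      linarith
    have h5 : Real.exp Xe * Real.exp (-Xe) = 1 := by rw [← Real.exp_add]; simp
    have h6 := Real.exp_pos Xe
    calc Real.exp Xe = Real.exp Xe * 1 := (mul_one _).symm
      _ ≤ Real.exp Xe * (16 * (n : ℝ) ^ 2 * (s * Real.exp (-Xe))) :=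
          mul_le_mul_of_nonneg_left h4 h6.le
      _ = 16 * (n : ℝ) ^ 2 * s * (Real.exp Xe * Real.exp (-Xe)) := by ring
      _ = 16 * (n : ℝ) ^ 2 * s := by rw [h5, mul_one]
  have h7 : (2 : ℝ) ^ N0 * ((2 : ℝ) ^ lg) ^ 7 ≤ Real.exp Xe := by
    have h8 : (2 : ℝ) ≤ Real.exp 1 := by
      have := Real.add_one_le_exp (1 : ℝ); linarith
    calc (2 : ℝ) ^ N0 * ((2 : ℝ) ^ lg) ^ 7 =
          2 ^ (N0 + lg * 7) := by rw [← pow_mul, ← pow_add]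
      _ ≤ (Real.exp 1) ^ (N0 + lg * 7) := pow_le_pow_left₀ (by norm_num) h8 _
      _ = Real.exp ((N0 + lg * 7 : ℕ) : ℝ) := by
          rw [← Real.exp_nat_mul, mul_one]
      _ ≤ Real.exp Xe := by
          apply Real.exp_le_exp.2
          refine le_trans ?_ hX
          have h13 : ((N0 + lg * 7 : ℕ) : ℝ) = N0 + (lg : ℝ) * 7 := by push_cast; ring
          rw [h13]
          linarith
  have h20 : (2 : ℝ) ^ N0 * (n : ℝ) ^ 7 ≤ 16 * (n : ℝ) ^ 2 * s := by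
    refine le_trans ?_ (h7.trans h1)
    apply mul_le_mul_of_nonneg_left _ (by positivity)
    exact pow_le_pow_left₀ (Nat.cast_nonneg n) hnlog 7
  have h21 : (2 : ℝ) ^ N0 ≤ s := by
    have hn0 : (0 : ℝ) < n := by linarith
    have h22 : 16 * (n : ℝ) ^ 2 ≤ (n : ℝ) ^ 7 := by
      have h23 : (1 : ℝ) ≤ (n : ℝ) ^ 4 := one_le_pow₀ (by linarith)
      calc 16 * (n : ℝ) ^ 2 = 16 * (n : ℝ) ^ 2 * 1 := by ring
        _ ≤ n * (n : ℝ) ^ 2 * (n : ℝ) ^ 4 := by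
            apply mul_le_mul _ h23 (by norm_num) (by positivity)
            exact mul_le_mul_of_nonneg_right hnbig (by positivity)
        _ = (n : ℝ) ^ 7 := by ring
    have h24 : (2 : ℝ) ^ N0 * (16 * (n : ℝ) ^ 2) ≤ s * (16 * (n : ℝ) ^ 2) := by
      calc (2 : ℝ) ^ N0 * (16 * (n : ℝ) ^ 2) ≤ (2 : ℝ) ^ N0 * (n : ℝ) ^ 7 :=
            mul_le_mul_of_nonneg_left h22 (by positivity)
        _ ≤ 16 * (n : ℝ) ^ 2 * s := h20
        _ = s * (16 * (n : ℝ) ^ 2) := by ring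
    exact le_of_mul_le_mul_right h24 (by positivity)
  exact_mod_cast h21

/-- From the core inequality to the bound. -/
theorem final_count {n n1 T D ℓ k t h s a p : ℕ} (hp : 2 ≤ p)
    (hD : D ≤ p * (k + 1))
    (hn : cst p a h ^ (k + 1) * (t + 1) ^ (h + 1) * (Nat.log 2 n + 1) ≤ n)
    (hnn1 : n ≤ 4 * n1)
    (hTn : T + 1 ≤ n)
    (hℓ : n1 ≤ 2 ^ 38 * (16 * ((a + 2) * (t + p) ^ h * (p * D) * ℓ)))
    (hcore : 1 ≤ 16 * ((T : ℝ) + 1) ^ 2 * (s * (1 - (((1 / 2 : ℝ) ^ 22) ^ 2) ^ D / 2) ^ ℓ)) :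
    2 ^ (n / (cst p a h ^ (k + 1) * (t + 1) ^ h)) ≤ s := by
  have hnat := nat_part (a := a) hp hD hnn1 hℓ
  have hC16 := cst_ge (a := a) (h := h) hp
  have hCk : cst p a h ≤ cst p a h ^ (k + 1) := Nat.le_self_pow (by omega) _
  generalize cst p a h ^ (k + 1) = CC at hn hnat hCk ⊢
  have hz := zeta_eq D
  have hE0 : 0 < 2 ^ (44 * D) := Nat.pow_pos (by norm_num)
  generalize 2 ^ (44 * D) = Ep at hnat hz hE0
  generalize (((1 / 2 : ℝ) ^ 22) ^ 2) ^ D = ζ at hz hcore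
  have ht1 : 1 ≤ (t + 1) ^ h := Nat.one_le_pow _ _ (by omega)
  have ht2 : (t + 1) ^ h ≤ (t + 1) ^ (h + 1) := Nat.pow_le_pow_right (by omega) (by omega)
  have hEp' : (0 : ℝ) < Ep := by exact_mod_cast hE0
  refine real_part (ζ := ζ) (Ep := Ep) (T := T) (lg := Nat.log 2 n + 1) (ℓ := ℓ) ?_ hEp' hz
    ?_ ?_ ?_ ?_ ?_ (Nat.cast_nonneg T) ?_ hcore
  · rw [hz, div_le_one hEp']
    exact_mod_cast hE0
  · exact Nat.mul_pos (by omega) ht1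
  · exact_mod_cast hnat
  · have h1 : (Nat.log 2 n + 1) * (CC * (t + 1) ^ h) ≤ n := by
      refine le_trans ?_ hn
      rw [mul_comm]
      apply Nat.mul_le_mul_right
      exact Nat.mul_le_mul_left _ ht2
    exact_mod_cast h1
  · exact_mod_cast (Nat.lt_pow_succ_log_self (by norm_num : 1 < 2) n).le
  · refine le_trans ?_ hn
    have h2 : 1 ≤ (t + 1) ^ (h + 1) := ht1.trans ht2
    calc 16 ≤ CC * 1 * 1 := by omega
      _ ≤ CC * (t + 1) ^ (h + 1) * (Nat.log 2 n + 1) :=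
          Nat.mul_le_mul (Nat.mul_le_mul_left _ h2) (by omega)
  · exact_mod_cast hTn

theorem W_ge {n1 V : ℕ} (hV1 : 1 ≤ V) (hVn : 2 ^ 45 * V ≤ n1) :
    n1 ≤ 2 ^ 38 * (n1 / (2 ^ 37 * V) * V) := by
  have h4 : n1 < n1 / (2 ^ 37 * V) * (2 ^ 37 * V) + 2 ^ 37 * V :=
    Nat.lt_div_mul_add (Nat.mul_pos (by norm_num) hV1)
  have h5 : n1 / (2 ^ 37 * V) * (2 ^ 37 * V) = 2 ^ 37 * (n1 / (2 ^ 37 * V) * V) := by ring
  rw [h5] at h4
  have h8 : 4 * (2 ^ 37 * V) ≤ n1 := by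
    refine le_trans ?_ hVn
    have : 4 * (2 ^ 37 * V) = 2 ^ 39 * V := by ring
    rw [this]
    exact Nat.mul_le_mul_right _ (by norm_num)
  have h11 : 2 ^ 38 * (n1 / (2 ^ 37 * V) * V) = 2 * (2 ^ 37 * (n1 / (2 ^ 37 * V) * V)) := by ring
  rw [h11]
  generalize 2 ^ 37 * (n1 / (2 ^ 37 * V) * V) = A at *
  generalize 2 ^ 37 * V = B at *
  omega

theorem E_le {p a h k t D : ℕ} (hp : 2 ≤ p) (hD : D ≤ p * (k + 1)) :
    2 ^ 53 * ((a + 2) * (t + p) ^ (h + 1) * D) ≤ cst p a h ^ (k + 1) * (t + 1) ^ (h + 1) := by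
  have h3 : (t + p) ^ (h + 1) ≤ p ^ (h + 1) * (t + 1) ^ (h + 1) := by
    rw [← mul_pow]
    apply Nat.pow_le_pow_left
    have : 1 * t ≤ p * t := Nat.mul_le_mul_right _ (by omega)
    rw [Nat.mul_add]
    omega
  have h5 : (8 * ((a + 2) * p ^ (h + 1))) * 2 ^ (45 * (p + 1) * (k + 1)) ≤
      cst p a h ^ (k + 1) := cst_pow
  have h6 : 2 ^ 50 * (p * (k + 1)) ≤ 2 ^ (45 * (p + 1) * (k + 1)) := two_pow_ge hp
  generalize cst p a h ^ (k + 1) = CC at h5 ⊢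
  generalize 2 ^ (45 * (p + 1) * (k + 1)) = EE at h5 h6
  generalize p ^ (h + 1) = Pp at *
  generalize (t + 1) ^ (h + 1) = Tt at *
  generalize (t + p) ^ (h + 1) = Tp at *
  calc 2 ^ 53 * ((a + 2) * Tp * D)
      ≤ 2 ^ 53 * ((a + 2) * (Pp * Tt) * (p * (k + 1))) := by
        apply Nat.mul_le_mul_left
        exact Nat.mul_le_mul (Nat.mul_le_mul_left _ h3) hD
    _ = (8 * ((a + 2) * Pp)) * (2 ^ 50 * (p * (k + 1))) * Tt := by ring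
    _ ≤ (8 * ((a + 2) * Pp)) * EE * Tt := by
        apply Nat.mul_le_mul_right
        exact Nat.mul_le_mul_left _ h6
    _ ≤ CC * Tt := Nat.mul_le_mul_right _ h5

/-- The choice of `ℓ`. -/
theorem ell_cond {W G : ℕ} (hG : 1 ≤ G) (hGW : 16 * G ≤ W) :
    8 * G * (W / (8 * G)) ≤ W ∧ W ≤ 16 * (G * (W / (8 * G))) := by
  have h1 := Nat.div_mul_le_self W (8 * G)
  have h2 : W < W / (8 * G) * (8 * G) + 8 * G := Nat.lt_div_mul_add (by omega)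
  have h3 : 8 * G * (W / (8 * G)) = W / (8 * G) * (8 * G) := mul_comm _ _
  have h4 : 16 * (G * (W / (8 * G))) = 2 * (W / (8 * G) * (8 * G)) := by ring
  rw [h3, h4]
  omega

theorem chain {a b c d X : ℕ} (h1 : 2 ^ 53 * X ≤ a) (h2 : a ≤ b) (h3 : b ≤ 4 * c)
    (h4 : c ≤ 2 ^ 38 * d) : 16 * X ≤ d := by
  omega

end Pool.Agent.Helper21.Par
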