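import Pool.Agent.Helper21.AC0p.Filt

/-!
Hilbert functions of finite sets of points with respect to a filtration, and the approximation
of the common zero set of a family of 0/1 valued functions.
-/

namespace Pool.Agent.Helper21.Par

open scoped BigOperators Classical
open Pool.Agent.Helper21.AC0p

section Basic

variable {X K : Type} [Fintype X] [Field K]

/-- Evaluation at `x`, as a functional on `V`. -/
noncomputable def evx (V : Submodule K (X → K)) (x : X) : Module.Dual K V :=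
  (LinearMap.proj x : (X → K) →ₗ[K] K).comp V.subtype

omit [Fintype X] in
theorem evx_apply (V : Submodule K (X → K)) (x : X) (h : V) : evx V x h = (h : X → K) x := rfl

/-- The span of the evaluations at the points of `E`. -/
noncomputable def evs (V : Submodule K (X → K)) (E : Set X) : Submodule K (Module.Dual K V) :=
  Submodule.span K (evx V '' E)

/-- The number of linear conditions imposed by `E` on `V`. -/
noncomputable def HF (V : Submodule K (X → K)) (E : Set X) : ℕ := Module.finrank K (evs V E)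

theorem HF_mono (V : Submodule K (X → K)) {E E' : Set X} (h : E ⊆ E') : HF V E ≤ HF V E' :=
  Submodule.finrank_mono (Submodule.span_mono (Set.image_mono h))

theorem HF_le_finrank (V : Submodule K (X → K)) (E : Set X) : HF V E ≤ Module.finrank K V := by
  unfold HF
  refine (Submodule.finrank_le _).trans ?_
  rw [Subspace.dual_finrank_eq]

theorem HF_le_card (V : Submodule K (X → K)) (E : Set X) : HF V E ≤ Fintype.card X := by
  refine (HF_le_finrank V E).trans ?_
  refine (Submodule.finrank_le _).trans ?_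
  simp

omit [Fintype X] in
theorem evs_biUnion {ι : Type} (V : Submodule K (X → K)) (s : Finset ι) (E : ι → Set X) :
    evs V (⋃ i ∈ s, E i) = s.sup (fun i => evs V (E i)) := by
  induction s using Finset.induction_on with
  | empty => simp [evs]
  | insert a s ha ih =>
    rw [Finset.sup_insert, ← ih]
    simp only [evs]
    rw [← Submodule.span_union, ← Set.image_union]
    congr 2
    ext x
    simp

theorem HF_biUnion_le {ι : Type} (V : Submodule K (X → K)) (s : Finset ι) (E : ι → Set X) :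
    HF V (⋃ i ∈ s, E i) ≤ ∑ i ∈ s, HF V (E i) := by
  unfold HF
  rw [evs_biUnion]
  induction s using Finset.induction_on with
  | empty => simp
  | insert a s ha ih =>
    rw [Finset.sup_insert, Finset.sum_insert ha]
    exact (Submodule.finrank_add_le_finrank_add_finrank _ _).trans (Nat.add_le_add_left ih _)

/-- Drop of the Hilbert function after intersecting with a hypersurface. -/
theorem HF_drop (V V' : Submodule K (X → K)) (G : X → K) (hG : ∀ h ∈ V', G * h ∈ V)
    (E : Set X) : HF V (E ∩ {x | G x = 0}) + HF V' (E ∩ {x | G x ≠ 0}) ≤ HF V E := by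
  -- multiplication by `G`
  let μ : V' →ₗ[K] V :=
    { toFun := fun h => ⟨G * (h : X → K), hG h h.2⟩
      map_add' := by
        intro a b
        apply Subtype.ext
        simp [mul_add]
      map_smul' := by
        intro c a
        apply Subtype.ext
        simp }
  have hμ : ∀ x, μ.dualMap (evx V x) = G x • evx V' x := by
    intro x
    apply LinearMap.ext
    intro h
    rw [LinearMap.dualMap_apply, evx_apply, LinearMap.smul_apply, evx_apply]
    rfl
  set U := evs V E with hU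
  let φ : U →ₗ[K] Module.Dual K V' := μ.dualMap.comp U.subtype
  have hrk := LinearMap.finrank_range_add_finrank_ker (K := K) (V := U)
    (V₂ := Module.Dual K V') φ
  have h1 : HF V' (E ∩ {x | G x ≠ 0}) ≤ Module.finrank K (LinearMap.range φ) := by
    unfold HF
    apply Submodule.finrank_mono
    unfold evs
    rw [Submodule.span_le]
    rintro _ ⟨x, ⟨hxE, hx⟩, rfl⟩
    have hxU : evx V x ∈ U := Submodule.subset_span ⟨x, hxE, rfl⟩
    refine ⟨(G x)⁻¹ • ⟨evx V x, hxU⟩, ?_⟩
    rw [map_smul]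
    change (G x)⁻¹ • μ.dualMap (evx V x) = _
    rw [hμ, smul_smul, inv_mul_cancel₀ hx, one_smul]
  have h2 : HF V (E ∩ {x | G x = 0}) ≤ Module.finrank K (LinearMap.ker φ) := by
    have h3 : evs V (E ∩ {x | G x = 0}) ≤ (LinearMap.ker φ).map U.subtype := by
      unfold evs
      rw [Submodule.span_le]
      rintro _ ⟨x, ⟨hxE, hx⟩, rfl⟩
      have hxU : evx V x ∈ U := Submodule.subset_span ⟨x, hxE, rfl⟩
      refine ⟨⟨evx V x, hxU⟩, ?_, rfl⟩
      rw [SetLike.mem_coe, LinearMap.mem_ker]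
      change μ.dualMap (evx V x) = 0
      rw [hμ]
      have : G x = 0 := hx
      rw [this, zero_smul]
    unfold HF
    refine (Submodule.finrank_mono h3).trans ?_
    exact Submodule.finrank_map_le _ _
  have h5 : HF V E = Module.finrank K U := rfl
  rw [h5, ← hrk, add_comm]
  exact add_le_add h1 h2

/-- A basis consisting of evaluations. -/
theorem exists_basis_points (V : Submodule K (X → K)) (E : Set X) :
    ∃ B : Finset X, (B : Set X) ⊆ E ∧ B.card = HF V E ∧
      ∀ E' : Set X, (B.filter (fun x => x ∈ E')).card ≤ HF V E' := by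
  obtain ⟨b, hbE, hspan, hli⟩ := exists_linearIndependent K (evx V '' E)
  have hfin : b.Finite := (Set.toFinite (evx V '' E)).subset hbE
  have hch : ∀ f : b, ∃ x ∈ E, evx V x = f := fun f => hbE f.2
  choose pt hptE hpt using hch
  have hinj : Function.Injective pt := by
    intro f f' hff
    apply Subtype.ext
    rw [← hpt f, ← hpt f', hff]
  have : Fintype b := hfin.fintype
  refine ⟨Finset.univ.image pt, ?_, ?_, ?_⟩
  · intro x hx
    rw [Finset.coe_image] at hx
    obtain ⟨f, _, rfl⟩ := hx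
    exact hptE f
  · rw [Finset.card_image_of_injective _ hinj, Finset.card_univ]
    unfold HF evs
    rw [← hspan]
    have := finrank_span_set_eq_card hli
    rw [this, Set.toFinset_card]
  · intro E'
    have h1 : ((Finset.univ.image pt).filter (fun x => x ∈ E')).card =
        (Finset.univ.filter (fun f : b => pt f ∈ E')).card := by
      rw [Finset.filter_image, Finset.card_image_of_injective _ hinj]
    rw [h1]
    -- the functionals with points in `E'` are independent
    have h2 : LinearIndependent K (fun f : {f : b // pt f ∈ E'} => ((f : b) : Module.Dual K V)) :=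
      hli.comp _ Subtype.val_injective
    have h3 : ∀ f : {f : b // pt f ∈ E'}, ((f : b) : Module.Dual K V) ∈ evs V E' := by
      intro f
      rw [← hpt f.1]
      exact Submodule.subset_span ⟨pt f.1, f.2, rfl⟩
    have h4 : LinearIndependent K (fun f : {f : b // pt f ∈ E'} =>
        (⟨((f : b) : Module.Dual K V), h3 f⟩ : evs V E')) := by
      apply LinearIndependent.of_comp (evs V E').subtype
      exact h2
    have h5 := h4.fintype_card_le_finrank
    unfold HF
    refine le_trans (le_of_eq ?_) h5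
    rw [Fintype.card_subtype]

/-- Averaging over random subsets. -/
theorem HF_avg {Ω : Type} (V : Submodule K (X → K)) (E : Set X) (S : Finset Ω) (A : Ω → Set X)
    (hA : ∀ x ∈ E, S.card ≤ 2 * (S.filter (fun ω => x ∈ A ω)).card) :
    S.card * HF V E ≤ 2 * ∑ ω ∈ S, HF V (E ∩ A ω) := by
  obtain ⟨B, hBE, hBc, hB⟩ := exists_basis_points V E
  have h1 : ∀ ω ∈ S, (B.filter (fun x => x ∈ A ω)).card ≤ HF V (E ∩ A ω) := by
    intro ω _
    have h0 := hB (E ∩ A ω)
    refine le_trans (Finset.card_le_card ?_) h0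
    intro x hx
    simp only [Finset.mem_filter] at hx ⊢
    exact ⟨hx.1, hBE hx.1, hx.2⟩
  have h2 : ∑ ω ∈ S, (B.filter (fun x => x ∈ A ω)).card =
      ∑ x ∈ B, (S.filter (fun ω => x ∈ A ω)).card := by
    simp only [Finset.card_filter]
    exact Finset.sum_comm
  have h3 : B.card * S.card ≤ ∑ x ∈ B, 2 * (S.filter (fun ω => x ∈ A ω)).card := by
    rw [← smul_eq_mul, ← Finset.sum_const]
    exact Finset.sum_le_sum (fun x hx => hA x (hBE hx))
  rw [← Finset.mul_sum, ← h2] at h3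
  rw [← hBc, mul_comm]
  exact h3.trans (Nat.mul_le_mul_left 2 (Finset.sum_le_sum h1))

end Basic

section Weighted

variable {X K : Type} [Fintype X] [Field K] (𝔉 : Filt X K)

/-- The generating function of the Hilbert functions. -/
noncomputable def Hw (z : ℝ) (E : Set X) : ℝ := ∑' t : ℕ, z ^ t * (HF (𝔉.LD t) E : ℝ)

variable {𝔉} {z : ℝ}

theorem summable_Hw (hz0 : 0 ≤ z) (hz1 : z < 1) (E : Set X) :
    Summable (fun t : ℕ => z ^ t * (HF (𝔉.LD t) E : ℝ)) := by
  refine Summable.of_nonneg_of_le (fun t => by positivity) (fun t => ?_)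
    ((summable_geometric_of_lt_one hz0 hz1).mul_right (Fintype.card X : ℝ))
  apply mul_le_mul_of_nonneg_left _ (by positivity)
  exact_mod_cast HF_le_card _ _

omit [Fintype X] in
theorem Hw_nonneg (hz0 : 0 ≤ z) (E : Set X) : 0 ≤ Hw 𝔉 z E :=
  tsum_nonneg (fun t => by positivity)

theorem Hw_mono (hz0 : 0 ≤ z) (hz1 : z < 1) {E E' : Set X} (h : E ⊆ E') :
    Hw 𝔉 z E ≤ Hw 𝔉 z E' := by
  refine Summable.tsum_le_tsum (fun t => ?_) (summable_Hw hz0 hz1 E) (summable_Hw hz0 hz1 E')
  apply mul_le_mul_of_nonneg_left _ (by positivity)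
  exact_mod_cast HF_mono _ h

theorem HF_le_Hw (hz0 : 0 ≤ z) (hz1 : z < 1) (E : Set X) (t : ℕ) :
    z ^ t * (HF (𝔉.LD t) E : ℝ) ≤ Hw 𝔉 z E :=
  (summable_Hw hz0 hz1 E).le_tsum t (fun _ _ => by positivity)

theorem Hw_drop (hz0 : 0 ≤ z) (hz1 : z < 1) {D : ℕ} {G : X → K} (hG : G ∈ 𝔉.LD D)
    (E : Set X) : Hw 𝔉 z (E ∩ {x | G x = 0}) + z ^ D * Hw 𝔉 z (E ∩ {x | G x ≠ 0}) ≤
      Hw 𝔉 z E := by
  have hs0 := summable_Hw (𝔉 := 𝔉) hz0 hz1 (E ∩ {x | G x = 0})
  have hs1 := summable_Hw (𝔉 := 𝔉) hz0 hz1 (E ∩ {x | G x ≠ 0})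
  have hs := summable_Hw (𝔉 := 𝔉) hz0 hz1 E
  unfold Hw
  rw [← hs0.sum_add_tsum_nat_add D, ← hs.sum_add_tsum_nat_add D, ← tsum_mul_left, add_assoc]
  have hs0' := (summable_nat_add_iff D).2 hs0
  have hs' := (summable_nat_add_iff D).2 hs
  have hs1' : Summable (fun t : ℕ => z ^ D * (z ^ t * (HF (𝔉.LD t) (E ∩ {x | G x ≠ 0}) : ℝ))) :=
    hs1.mul_left _
  rw [← hs0'.tsum_add hs1']
  apply add_le_add
  · apply Finset.sum_le_sum
    intro t _
    apply mul_le_mul_of_nonneg_left _ (by positivity)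
    exact_mod_cast HF_mono _ Set.inter_subset_left
  · refine Summable.tsum_le_tsum (fun t => ?_) (hs0'.add hs1') hs'
    have h := HF_drop (𝔉.LD (t + D)) (𝔉.LD t) G (fun h hh => by
      rw [add_comm]; exact 𝔉.mul_mem hG hh) E
    have h' : (HF (𝔉.LD (t + D)) (E ∩ {x | G x = 0}) : ℝ) +
        (HF (𝔉.LD t) (E ∩ {x | G x ≠ 0}) : ℝ) ≤ HF (𝔉.LD (t + D)) E := by exact_mod_cast h
    have hz : 0 ≤ z ^ (t + D) := by positivity
    calc z ^ (t + D) * (HF (𝔉.LD (t + D)) (E ∩ {x | G x = 0}) : ℝ) +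
          z ^ D * (z ^ t * (HF (𝔉.LD t) (E ∩ {x | G x ≠ 0}) : ℝ))
        = z ^ (t + D) * ((HF (𝔉.LD (t + D)) (E ∩ {x | G x = 0}) : ℝ) +
          (HF (𝔉.LD t) (E ∩ {x | G x ≠ 0}) : ℝ)) := by rw [pow_add]; ring
      _ ≤ z ^ (t + D) * (HF (𝔉.LD (t + D)) E : ℝ) := mul_le_mul_of_nonneg_left h' hz

theorem Hw_avg (hz0 : 0 ≤ z) (hz1 : z < 1) {Ω : Type} (E : Set X) (S : Finset Ω)
    (hS : S.Nonempty) (A : Ω → Set X)
    (hA : ∀ x ∈ E, S.card ≤ 2 * (S.filter (fun ω => x ∈ A ω)).card) :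
    ∃ ω ∈ S, Hw 𝔉 z E ≤ 2 * Hw 𝔉 z (E ∩ A ω) := by
  have h1 : (S.card : ℝ) * Hw 𝔉 z E ≤ ∑ ω ∈ S, 2 * Hw 𝔉 z (E ∩ A ω) := by
    rw [← Finset.mul_sum]
    unfold Hw
    rw [← Summable.tsum_finsetSum (fun ω _ => summable_Hw hz0 hz1 (E ∩ A ω)),
      ← tsum_mul_left, ← tsum_mul_left]
    refine Summable.tsum_le_tsum (fun t => ?_) ((summable_Hw hz0 hz1 E).mul_left _)
      ((summable_sum (fun ω _ => summable_Hw hz0 hz1 (E ∩ A ω))).mul_left _)
    have h := HF_avg (𝔉.LD t) E S A hA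
    have h' : (S.card : ℝ) * HF (𝔉.LD t) E ≤ 2 * ∑ ω ∈ S, (HF (𝔉.LD t) (E ∩ A ω) : ℝ) := by
      exact_mod_cast h
    calc (S.card : ℝ) * (z ^ t * (HF (𝔉.LD t) E : ℝ)) =
          z ^ t * ((S.card : ℝ) * HF (𝔉.LD t) E) := by ring
      _ ≤ z ^ t * (2 * ∑ ω ∈ S, (HF (𝔉.LD t) (E ∩ A ω) : ℝ)) :=
          mul_le_mul_of_nonneg_left h' (by positivity)
      _ = 2 * ∑ ω ∈ S, z ^ t * (HF (𝔉.LD t) (E ∩ A ω) : ℝ) := by
          rw [← Finset.mul_sum]; ring
  have h2 : ∑ ω ∈ S, Hw 𝔉 z E ≤ ∑ ω ∈ S, 2 * Hw 𝔉 z (E ∩ A ω) := by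
    rw [Finset.sum_const, nsmul_eq_mul]; exact h1
  exact Finset.exists_le_of_sum_le hS h2

end Weighted

section Approx

variable {X K : Type} [Fintype X] [Field K] {𝔉 : Filt X K} {z : ℝ}

theorem natCast_pow_pred {p : ℕ} [hp : Fact p.Prime] [CharP K p] (m : ℕ) (hm : (m : K) ≠ 0) :
    (m : K) ^ (p - 1) = 1 := by
  have h1 : ((m : ZMod p)) ≠ 0 := by
    intro h
    apply hm
    rw [CharP.cast_eq_zero_iff K p]
    rwa [ZMod.natCast_eq_zero_iff] at h
  have h2 := ZMod.pow_card_sub_one_eq_one h1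
  have h3 := congrArg (ZMod.castHom (dvd_refl p) K) h2
  simpa using h3

/-- The half of the random subsums that do not vanish. -/
theorem half_subsets {ι : Type} (s : Finset ι) (g : ι → K) (i₀ : ι) (hi : i₀ ∈ s)
    (hg : g i₀ = 1) :
    s.powerset.card ≤ 2 * (s.powerset.filter (fun R => ∑ i ∈ R, g i ≠ 0)).card := by
  -- pair `R` with `R ∆ {i₀}`
  have key : (s.powerset.filter (fun R => ∑ i ∈ R, g i = 0)).card ≤
      (s.powerset.filter (fun R => ∑ i ∈ R, g i ≠ 0)).card := by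
    apply Finset.card_le_card_of_injOn (fun R => if i₀ ∈ R then R.erase i₀ else insert i₀ R)
    · intro R hR
      rw [Finset.mem_coe, Finset.mem_filter, Finset.mem_powerset] at hR
      rw [Finset.mem_coe, Finset.mem_filter, Finset.mem_powerset]
      by_cases h : i₀ ∈ R
      · simp only [h, if_true]
        refine ⟨(Finset.erase_subset _ _).trans hR.1, ?_⟩
        have := Finset.add_sum_erase R g h
        rw [hR.2, hg] at this
        intro h0
        rw [h0, add_zero] at this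
        exact one_ne_zero this
      · simp only [h, if_false]
        refine ⟨Finset.insert_subset hi hR.1, ?_⟩
        rw [Finset.sum_insert h, hR.2, hg, add_zero]
        exact one_ne_zero
    · intro R _ R' _ hRR
      simp only at hRR
      by_cases h : i₀ ∈ R <;> by_cases h' : i₀ ∈ R'
      · simp only [h, h', if_true] at hRR
        rw [← Finset.insert_erase h, ← Finset.insert_erase h', hRR]
      · simp only [h, h', if_true, if_false] at hRR
        have : i₀ ∈ R.erase i₀ := by rw [hRR]; exact Finset.mem_insert_self _ _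
        simp at this
      · simp only [h, h', if_true, if_false] at hRR
        have : i₀ ∈ R'.erase i₀ := by rw [← hRR]; exact Finset.mem_insert_self _ _
        simp at this
      · simp only [h, h', if_false] at hRR
        rw [← Finset.erase_insert h, ← Finset.erase_insert h', hRR]
  have h2 := Finset.card_filter_add_card_filter_not (s := s.powerset)
    (fun R => ∑ i ∈ R, g i = 0)
  simp only [ne_eq] at key ⊢
  omega

/-- One step: a subsum that halves. -/
theorem exists_subsum (hz0 : 0 ≤ z) (hz1 : z < 1) {ι : Type} (s : Finset ι) (g : ι → X → K)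
    (hg01 : ∀ i ∈ s, ∀ x, g i x = 0 ∨ g i x = 1) {D : ℕ} (hgD : ∀ i ∈ s, g i ∈ 𝔉.LD D)
    (E : Set X) (hE : ∀ x ∈ E, ∃ i ∈ s, g i x ≠ 0) :
    ∃ R ⊆ s, Hw 𝔉 z (E ∩ {x | (∑ i ∈ R, g i) x = 0}) ≤ (1 - z ^ D / 2) * Hw 𝔉 z E := by
  obtain ⟨R, hR, hav⟩ := Hw_avg (𝔉 := 𝔉) hz0 hz1 E s.powerset
    ⟨∅, Finset.empty_mem_powerset s⟩ (fun R => {x | (∑ i ∈ R, g i) x ≠ 0}) (by
      intro x hx
      obtain ⟨i, hi, hne⟩ := hE x hx
      have h1 : g i x = 1 := (hg01 i hi x).resolve_left hne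
      have := half_subsets s (fun j => g j x) i hi h1
      simpa [Finset.sum_apply] using this)
  refine ⟨R, Finset.mem_powerset.1 hR, ?_⟩
  have hRD : (∑ i ∈ R, g i) ∈ 𝔉.LD D :=
    Submodule.sum_mem _ (fun i hi => hgD i (Finset.mem_powerset.1 hR hi))
  have hd := Hw_drop (𝔉 := 𝔉) hz0 hz1 hRD E
  have hzD : 0 ≤ z ^ D := by positivity
  have h3 : z ^ D * Hw 𝔉 z E ≤ z ^ D * (2 * Hw 𝔉 z (E ∩ {x | (∑ i ∈ R, g i) x ≠ 0})) :=
    mul_le_mul_of_nonneg_left hav hzD
  nlinarith

/-- Approximation of the common zero set of a family of 0/1 valued functions of degree `D` by a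
function of degree `ℓ (p-1) D`, with an error set of small Hilbert function. -/
theorem approx_zero {p : ℕ} [hp : Fact p.Prime] [CharP K p] (hz0 : 0 ≤ z) (hz1 : z < 1)
    {ι : Type} (s : Finset ι) (g : ι → X → K)
    (hg01 : ∀ i ∈ s, ∀ x, g i x = 0 ∨ g i x = 1) {D : ℕ} (hgD : ∀ i ∈ s, g i ∈ 𝔉.LD D)
    (ℓ : ℕ) : ∃ θ : X → K, θ ∈ 𝔉.LD (ℓ * ((p - 1) * D)) ∧
      (∀ x, (∀ i ∈ s, g i x = 0) → θ x = 1) ∧
      Hw 𝔉 z {x | (∃ i ∈ s, g i x ≠ 0) ∧ θ x ≠ 0} ≤
        (1 - z ^ D / 2) ^ ℓ * Hw 𝔉 z Set.univ := by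
  induction ℓ with
  | zero =>
    refine ⟨1, ?_, fun x _ => rfl, ?_⟩
    · rw [zero_mul]; exact 𝔉.one_mem
    · rw [pow_zero, one_mul]
      exact Hw_mono hz0 hz1 (Set.subset_univ _)
  | succ ℓ ih =>
    obtain ⟨θ, hθD, hθ1, hθE⟩ := ih
    obtain ⟨R, hR, hR'⟩ := exists_subsum (𝔉 := 𝔉) hz0 hz1 s g hg01 hgD
      {x | (∃ i ∈ s, g i x ≠ 0) ∧ θ x ≠ 0} (fun x hx => hx.1)
    set G : X → K := ∑ i ∈ R, g i with hGdef
    have hGD : G ∈ 𝔉.LD D := Submodule.sum_mem _ (fun i hi => hgD i (hR hi))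
    have hGnat : ∀ x, ∃ m : ℕ, G x = (m : K) := by
      intro x
      refine ⟨(R.filter (fun i => g i x = 1)).card, ?_⟩
      rw [hGdef, Finset.sum_apply]
      rw [Finset.card_eq_sum_ones, Finset.sum_filter]
      push_cast
      refine Finset.sum_congr rfl (fun i hi => ?_)
      rcases hg01 i (hR hi) x with h | h
      · rw [h]; simp
      · rw [h]; simp
    refine ⟨θ * (1 - G ^ (p - 1)), ?_, ?_, ?_⟩
    · have h1 : (1 - G ^ (p - 1)) ∈ 𝔉.LD ((p - 1) * D) :=
        Submodule.sub_mem _ (𝔉.one_mem' _) (𝔉.pow_mem hGD _)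
      have := 𝔉.mul_mem hθD h1
      convert this using 2
      ring
    · intro x hx
      have hG0 : G x = 0 := by
        rw [hGdef, Finset.sum_apply]
        exact Finset.sum_eq_zero (fun i hi => hx i (hR hi))
      have hp1 : p - 1 ≠ 0 := by have := hp.out.two_le; omega
      simp only [Pi.mul_apply, Pi.sub_apply, Pi.one_apply, Pi.pow_apply]
      rw [hG0, zero_pow hp1, hθ1 x hx]
      ring
    · have hsub : {x | (∃ i ∈ s, g i x ≠ 0) ∧ (θ * (1 - G ^ (p - 1))) x ≠ 0} ⊆
          {x | (∃ i ∈ s, g i x ≠ 0) ∧ θ x ≠ 0} ∩ {x | G x = 0} := by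
        rintro x ⟨hx1, hx2⟩
        simp only [Pi.mul_apply, Pi.sub_apply, Pi.one_apply, Pi.pow_apply] at hx2
        refine ⟨⟨hx1, fun h => hx2 (by rw [h, zero_mul])⟩, ?_⟩
        by_contra hG
        obtain ⟨m, hm⟩ := hGnat x
        have hG' : G x ≠ 0 := hG
        rw [hm] at hG'
        apply hx2
        rw [hm, natCast_pow_pred m hG']
        ring
      refine (Hw_mono hz0 hz1 hsub).trans (hR'.trans ?_)
      have hfac : 0 ≤ 1 - z ^ D / 2 := by
        have : z ^ D ≤ 1 := pow_le_one₀ hz0 hz1.le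
        linarith
      calc (1 - z ^ D / 2) * Hw 𝔉 z {x | (∃ i ∈ s, g i x ≠ 0) ∧ θ x ≠ 0}
          ≤ (1 - z ^ D / 2) * ((1 - z ^ D / 2) ^ ℓ * Hw 𝔉 z Set.univ) :=
            mul_le_mul_of_nonneg_left hθE hfac
        _ = (1 - z ^ D / 2) ^ (ℓ + 1) * Hw 𝔉 z Set.univ := by rw [pow_succ]; ring

end Approx

end Pool.Agent.Helper21.Par
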