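import Pool.Agent.Helper21.Par.Hilb
import Pool.Agent.Helper21.Par.Defs
import Pool.Agent.Helper21.AC0p.System

/-!
Functions that are of low degree modulo a function `P`, and formulas.
-/

namespace Pool.Agent.Helper21.Par

open scoped BigOperators Classical
open Pool.Agent.Helper21.AC0p

section Mod

variable {X K : Type} [Field K] (𝔉 : Filt X K) (P : X → K)

/-- `f` agrees, after multiplication by `P`, with a function of degree `D`. -/
def LowMod (D : ℕ) (f : X → K) : Prop := ∃ g ∈ 𝔉.LD D, P * f = P * g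

variable {𝔉 P} {f f' : X → K} {D D' : ℕ}

theorem LowMod.of_mem (h : f ∈ 𝔉.LD D) : LowMod 𝔉 P D f := ⟨f, h, rfl⟩

theorem LowMod.mono (h : LowMod 𝔉 P D f) (hD : D ≤ D') : LowMod 𝔉 P D' f := by
  obtain ⟨g, hg, hfg⟩ := h
  exact ⟨g, 𝔉.mono hD hg, hfg⟩

theorem LowMod.congr (h : LowMod 𝔉 P D f) (hff : P * f' = P * f) : LowMod 𝔉 P D f' := by
  obtain ⟨g, hg, hfg⟩ := h
  exact ⟨g, hg, hff.trans hfg⟩

theorem LowMod.add (h : LowMod 𝔉 P D f) (h' : LowMod 𝔉 P D f') : LowMod 𝔉 P D (f + f') := by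
  obtain ⟨g, hg, hfg⟩ := h
  obtain ⟨g', hg', hfg'⟩ := h'
  exact ⟨g + g', Submodule.add_mem _ hg hg', by rw [mul_add, mul_add, hfg, hfg']⟩

theorem LowMod.one_sub (h : LowMod 𝔉 P D f) : LowMod 𝔉 P D (1 - f) := by
  obtain ⟨g, hg, hfg⟩ := h
  exact ⟨1 - g, Submodule.sub_mem _ (𝔉.one_mem' _) hg, by rw [mul_sub, mul_sub, hfg]⟩

theorem LowMod.mul (h : LowMod 𝔉 P D f) (h' : LowMod 𝔉 P D' f') :
    LowMod 𝔉 P (D + D') (f * f') := by
  obtain ⟨g, hg, hfg⟩ := h
  obtain ⟨g', hg', hfg'⟩ := h'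
  refine ⟨g * g', 𝔉.mul_mem hg hg', ?_⟩
  calc P * (f * f') = (P * f) * f' := by ring
    _ = (P * g) * f' := by rw [hfg]
    _ = (P * f') * g := by ring
    _ = (P * g') * g := by rw [hfg']
    _ = P * (g * g') := by ring

theorem LowMod.sum {ι : Type*} (s : Finset ι) (F : ι → X → K)
    (h : ∀ i ∈ s, LowMod 𝔉 P D (F i)) : LowMod 𝔉 P D (∑ i ∈ s, F i) := by
  induction s using Finset.induction_on with
  | empty => exact LowMod.of_mem (by simp)
  | insert a s ha ih =>
    rw [Finset.sum_insert ha]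
    exact (h a (Finset.mem_insert_self a s)).add
      (ih (fun i hi => h i (Finset.mem_insert_of_mem hi)))

theorem LowMod.pow (h : LowMod 𝔉 P D f) (k : ℕ) : LowMod 𝔉 P (k * D) (f ^ k) := by
  induction k with
  | zero =>
    rw [zero_mul, pow_zero]
    exact LowMod.of_mem 𝔉.one_mem
  | succ k ih =>
    rw [pow_succ, Nat.add_mul, one_mul]
    exact ih.mul h

theorem LowMod.prod {ι : Type*} (s : Finset ι) (F : ι → X → K)
    (h : ∀ i ∈ s, LowMod 𝔉 P D (F i)) : LowMod 𝔉 P (s.card * D) (∏ i ∈ s, F i) := by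
  induction s using Finset.induction_on with
  | empty =>
    rw [Finset.prod_empty, Finset.card_empty, zero_mul]
    exact LowMod.of_mem 𝔉.one_mem
  | insert a s ha ih =>
    rw [Finset.prod_insert ha, Finset.card_insert_of_notMem ha, Nat.add_mul, one_mul, add_comm]
    exact (h a (Finset.mem_insert_self a s)).mul
      (ih (fun i hi => h i (Finset.mem_insert_of_mem hi)))

end Mod

section Real

variable {X K : Type} [Field K] {p : ℕ} {v : X → ℕ → Bool}

/-- The truth value of `A` as a function. -/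
noncomputable def rfn (K : Type) [Field K] {X : Type} (p : ℕ) (v : X → ℕ → Bool) (A : Fm) :
    X → K := ind K (fun x => A.eval p (v x))

theorem rfn_apply (A : Fm) (x : X) : rfn K p v A x = if A.eval p (v x) = true then 1 else 0 :=
  rfl

theorem rfn_01 (A : Fm) (x : X) : rfn K p v A x = 0 ∨ rfn K p v A x = 1 := by
  rw [rfn_apply]
  split_ifs
  · right; rfl
  · left; rfl

theorem rfn_neg (A : Fm) : rfn K p v (.neg A) = 1 - rfn K p v A := by
  unfold rfn
  rw [← ind_not]
  rfl

theorem rfn_or {k : ℕ} (f : Fin k → Fm) :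
    rfn K p v (.or k f) = 1 - ∏ B ∈ Finset.univ.image f, (1 - rfn K p v B) := by
  funext x
  simp only [rfn_apply, Fm.eval, Pi.sub_apply, Pi.one_apply, Finset.prod_apply,
    decide_eq_true_eq]
  by_cases hx : ∃ j, (f j).eval p (v x) = true
  · rw [if_pos hx]
    obtain ⟨j, hj⟩ := hx
    rw [Finset.prod_eq_zero (Finset.mem_image_of_mem f (Finset.mem_univ j))]
    · simp
    · simp [hj]
  · rw [if_neg hx]
    push Not at hx
    rw [Finset.prod_eq_one]
    · simp
    · intro B hB
      rw [Finset.mem_image] at hB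
      obtain ⟨j, _, rfl⟩ := hB
      rw [if_neg (hx j)]
      simp

theorem rfn_mod [hp : Fact p.Prime] [CharP K p] {k : ℕ} (f : Fin k → Fm) :
    rfn K p v (.mod k f) = 1 - (∑ j, rfn K p v (f j)) ^ (p - 1) := by
  have h : (∑ j, rfn K p v (f j)) =
      (fun x => ((∑ j, ((f j).eval p (v x)).toNat : ℕ) : K)) := by
    funext x
    simp only [Finset.sum_apply, rfn_apply]
    push_cast
    refine Finset.sum_congr rfl (fun j _ => ?_)
    by_cases hb : (f j).eval p (v x) = true <;> simp [hb]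
  rw [h, ← ind_dvd]
  rfl

/-- Polynomial equations have low degree. -/
theorem rfn_eqn_mem [hp : Fact p.Prime] [CharP K p] {𝔉 : Filt X K}
    (hv : ∀ i, ind K (fun x => v x i) ∈ 𝔉.LD 1) {k : ℕ} {A : Fm} (hA : A.IsEqn p k) :
    rfn K p v A ∈ 𝔉.LD ((p - 1) * k) := by
  obtain ⟨g, hgk, hg⟩ := hA
  set φ : ZMod p →+* K := ZMod.castHom (dvd_refl p) K with hφ
  set G : X → K := fun x => φ (MvPolynomial.eval (fun i => (((v x) i).toNat : ZMod p)) g)
    with hG
  have hGmem : G ∈ 𝔉.LD k := by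
    have e : G = ∑ m ∈ g.support, (φ (g.coeff m)) •
        ∏ i ∈ m.support, (ind K (fun x => v x i)) ^ (m i) := by
      funext x
      rw [hG]
      simp only [MvPolynomial.eval_eq, map_sum, map_mul, map_prod, map_pow, Finset.sum_apply,
        Pi.smul_apply, smul_eq_mul, Finset.prod_apply, Pi.pow_apply]
      refine Finset.sum_congr rfl (fun m _ => ?_)
      congr 1
      refine Finset.prod_congr rfl (fun i _ => ?_)
      congr 1
      simp only [ind]
      by_cases hb : v x i = true <;> simp [hb]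
    rw [e]
    refine Submodule.sum_mem _ (fun m hm => Submodule.smul_mem _ _ ?_)
    have hdeg : ∑ i ∈ m.support, m i ≤ k := by
      have := MvPolynomial.le_totalDegree hm
      exact this.trans hgk
    refine 𝔉.mono hdeg ?_
    have hpr : ∀ s : Finset ℕ, (∏ i ∈ s, (ind K (fun x => v x i)) ^ (m i)) ∈
        𝔉.LD (∑ i ∈ s, m i) := by
      intro s
      induction s using Finset.induction_on with
      | empty => simpa using 𝔉.one_mem
      | insert a s ha ih =>
        rw [Finset.prod_insert ha, Finset.sum_insert ha]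
        refine 𝔉.mul_mem ?_ ih
        have := 𝔉.pow_mem (hv a) (m a)
        rwa [mul_one] at this
    exact hpr _
  have hr : rfn K p v A = 1 - G ^ (p - 1) := by
    funext x
    rw [rfn_apply]
    simp only [Pi.sub_apply, Pi.one_apply, Pi.pow_apply]
    have hp1 : p - 1 ≠ 0 := by have := hp.out.two_le; omega
    by_cases h0 : MvPolynomial.eval (fun i => (((v x) i).toNat : ZMod p)) g = 0
    · rw [if_pos ((hg (v x)).2 h0)]
      have : G x = 0 := by
        rw [hG]
        simp only
        rw [h0, map_zero]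
      rw [this, zero_pow hp1, sub_zero]
    · rw [if_neg (fun h => h0 ((hg (v x)).1 h))]
      have : G x ^ (p - 1) = 1 := by
        rw [hG]
        simp only
        rw [← map_pow, ZMod.pow_card_sub_one_eq_one h0, map_one]
      rw [this, sub_self]
  rw [hr]
  exact Submodule.sub_mem _ (𝔉.one_mem' _) (𝔉.pow_mem hGmem _)

end Real

section Formulas

variable {X K : Type} [Field K] {𝔉 : Filt X K} {P : X → K} {p : ℕ} {v : X → ℕ → Bool}

/-- Degree bounds by height. -/
def Mdeg (D L r : ℕ) : ℕ → ℕ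
  | 0 => D
  | h + 1 => L + r * Mdeg D L r h

theorem Mdeg_mono {D L r : ℕ} (hr : 1 ≤ r) : Monotone (Mdeg D L r) := by
  apply monotone_nat_of_le_succ
  intro h
  rw [Mdeg]
  have : 1 * Mdeg D L r h ≤ r * Mdeg D L r h := Nat.mul_le_mul_right _ hr
  omega

theorem Mdeg_le {D L r : ℕ} (hr : 2 ≤ r) (h : ℕ) :
    Mdeg D L r (h + 1) ≤ r ^ (h + 1) * D + 2 * (r ^ h * L) := by
  have key : ∀ h, Mdeg D L r (h + 1) + L ≤ r ^ (h + 1) * D + 2 * (r ^ h * L) := by
    intro h
    induction h with
    | zero => simp [Mdeg]; omega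
    | succ h ih =>
      rw [Mdeg]
      have h1 : r * (Mdeg D L r (h + 1) + L) ≤ r * (r ^ (h + 1) * D + 2 * (r ^ h * L)) :=
        Nat.mul_le_mul_left _ ih
      have h2 : r * (r ^ (h + 1) * D + 2 * (r ^ h * L)) =
          r ^ (h + 1 + 1) * D + 2 * (r ^ (h + 1) * L) := by ring
      have h3 : 2 * L ≤ r * L := Nat.mul_le_mul_right _ hr
      rw [Nat.mul_add] at h1
      omega
  have := key h
  omega

/-- The approximation of the simple disjuncts of a disjunction. -/
structure ThetaFor (𝔉 : Filt X K) (P : X → K) (p : ℕ) (v : X → ℕ → Bool) (S : Fm → Prop)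
    (L : ℕ) (A : Fm) : Prop where
  ex : ∀ (k : ℕ) (f : Fin k → Fm), A = Fm.or k f → ∃ θ ∈ 𝔉.LD L,
    P * ∏ B ∈ (Finset.univ.image f).filter S, (1 - rfn K p v B) = P * θ

theorem lowMod_fm [hp : Fact p.Prime] [CharP K p] (S : Fm → Prop) {D L t : ℕ} {π : List Fm}
    (hD : 1 ≤ D) (hv : ∀ i, ind K (fun x => v x i) ∈ 𝔉.LD 1)
    (hS : ∀ B, S B → rfn K p v B ∈ 𝔉.LD D)
    (hθ : ∀ A, ¬ S A → (∃ C ∈ π, Fm.IsSub A C) → ThetaFor 𝔉 P p v S L A)
    (ht : ∀ (k : ℕ) (f : Fin k → Fm), ¬ S (Fm.or k f) → (∃ A ∈ π, Fm.IsSub (Fm.or k f) A) →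
      {B | B ∈ Set.range f ∧ ¬ S B}.ncard ≤ t) (A : Fm) :
    (∃ C ∈ π, Fm.IsSub A C) →
      LowMod 𝔉 P (Mdeg D L (t + p) (A.heightOver S)) (rfn K p v A) := by
  have hr1 : 1 ≤ t + p := by have := hp.out.two_le; omega
  induction A with
  | var i =>
    intro _
    refine (LowMod.of_mem (hv i)).mono ?_
    exact hD.trans (Mdeg_mono hr1 (Nat.zero_le _))
  | neg A ih =>
    rintro ⟨C, hC, hsub⟩
    rw [rfn_neg]
    simp only [Fm.heightOver]
    apply LowMod.one_sub
    exact ih ⟨C, hC, isSub_trans (Fm.IsSub.neg Fm.IsSub.refl) hsub⟩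
  | or k f ih =>
    rintro ⟨C, hC, hsub⟩
    by_cases hSo : S (Fm.or k f)
    · simp only [Fm.heightOver, if_pos hSo]
      exact LowMod.of_mem (hS _ hSo)
    · simp only [Fm.heightOver, if_neg hSo]
      set h' := Finset.univ.sup (fun i => (f i).heightOver S) with hh'
      obtain ⟨θ, hθL, hθ1⟩ := (hθ _ hSo ⟨C, hC, hsub⟩).ex k f rfl
      have hrest : LowMod 𝔉 P (t * Mdeg D L (t + p) h')
          (∏ B ∈ (Finset.univ.image f).filter (fun B => ¬ S B), (1 - rfn K p v B)) := by
        have hcard : ((Finset.univ.image f).filter (fun B => ¬ S B)).card ≤ t := by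
          have h1 := ht k f hSo ⟨C, hC, hsub⟩
          rw [← Set.ncard_coe_finset]
          refine le_trans (le_of_eq ?_) h1
          congr 1
          ext B
          simp
        refine (LowMod.prod (D := Mdeg D L (t + p) h') _ _ ?_).mono
          (Nat.mul_le_mul_right _ hcard)
        intro B hB
        rw [Finset.mem_filter, Finset.mem_image] at hB
        obtain ⟨⟨i, _, rfl⟩, _⟩ := hB
        apply LowMod.one_sub
        refine (ih i ⟨C, hC, isSub_trans (Fm.IsSub.or i Fm.IsSub.refl) hsub⟩).mono ?_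
        apply Mdeg_mono hr1
        exact Finset.le_sup (f := fun i => (f i).heightOver S) (Finset.mem_univ i)
      rw [rfn_or]
      apply LowMod.one_sub
      rw [← Finset.prod_filter_mul_prod_filter_not (Finset.univ.image f) S]
      have h2 : LowMod 𝔉 P L
          (∏ B ∈ (Finset.univ.image f).filter S, (1 - rfn K p v B)) := ⟨θ, hθL, hθ1⟩
      refine (h2.mul hrest).mono ?_
      rw [Mdeg]
      have : t * Mdeg D L (t + p) h' ≤ (t + p) * Mdeg D L (t + p) h' :=
        Nat.mul_le_mul_right _ (by omega)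
      omega
  | mod k f ih =>
    rintro ⟨C, hC, hsub⟩
    by_cases hSo : S (Fm.mod k f)
    · simp only [Fm.heightOver, if_pos hSo]
      exact LowMod.of_mem (hS _ hSo)
    · simp only [Fm.heightOver, if_neg hSo]
      set h' := Finset.univ.sup (fun i => (f i).heightOver S) with hh'
      rw [rfn_mod]
      apply LowMod.one_sub
      refine ((LowMod.sum (D := Mdeg D L (t + p) h') _ _ ?_).pow (p - 1)).mono ?_
      · intro i _
        refine (ih i ⟨C, hC, isSub_trans (Fm.IsSub.mod i Fm.IsSub.refl) hsub⟩).mono ?_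
        apply Mdeg_mono hr1
        exact Finset.le_sup (f := fun i => (f i).heightOver S) (Finset.mem_univ i)
      · rw [Mdeg]
        have : (p - 1) * Mdeg D L (t + p) h' ≤ (t + p) * Mdeg D L (t + p) h' :=
          Nat.mul_le_mul_right _ (by omega)
        omega

end Formulas

end Pool.Agent.Helper21.Par
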