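import Pool.Agent.Helper21.Par.Final

/-!
The lower bound.
-/

namespace Pool.Agent.Helper21.Par

open scoped BigOperators Classical
open Pool.Agent.Helper21.AC0p Pool.Agent.Helper21.Lin

theorem w1_arith {n1 W T V : ℕ} (hT : T = n1 / 2 ^ 41 + 2) (hW : n1 ≤ 2 ^ 38 * W)
    (hV : 2 ^ 45 * V ≤ n1) (hbig : 2 ^ 45 * 60 ≤ n1) :
    T + 16 * V ≤ W ∧ 4 * T ≤ W := by
  have h1 : n1 / 2 ^ 41 ≤ W / 8 := by
    rw [Nat.le_div_iff_mul_le (by norm_num)]
    have h2 : n1 / 2 ^ 41 * 2 ^ 41 ≤ n1 := Nat.div_mul_le_self _ _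
    omega
  omega

theorem w2_arith {T W a M ℓ r h D p : ℕ} (hT : 4 * T ≤ W)
    (hM : M ≤ r ^ (h + 1) * D + 2 * (r ^ h * (ℓ * ((p - 1) * D))))
    (h1 : 16 * ((a + 2) * r ^ (h + 1) * D) ≤ W)
    (h2 : 8 * ((a + 2) * r ^ h * (p * D)) * ℓ ≤ W) :
    T + (a + 2) * M ≤ W := by
  have h3 : (a + 2) * M ≤ (a + 2) * r ^ (h + 1) * D + 2 * ((a + 2) * r ^ h * (p * D) * ℓ) := by
    calc (a + 2) * M ≤ (a + 2) * (r ^ (h + 1) * D + 2 * (r ^ h * (ℓ * ((p - 1) * D)))) :=
          Nat.mul_le_mul_left _ hM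
      _ = (a + 2) * r ^ (h + 1) * D + 2 * ((a + 2) * r ^ h * (((p - 1) * D)) * ℓ) := by ring
      _ ≤ _ := by
          apply Nat.add_le_add_left
          apply Nat.mul_le_mul_left
          apply Nat.mul_le_mul_right
          apply Nat.mul_le_mul_left
          exact Nat.mul_le_mul_right _ (Nat.sub_le _ _)
  have h4 : 8 * ((a + 2) * r ^ h * (p * D)) * ℓ = 8 * ((a + 2) * r ^ h * (p * D) * ℓ) := by ring
  rw [h4] at h2
  generalize (a + 2) * M = X1 at *
  generalize (a + 2) * r ^ (h + 1) * D = X2 at *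
  generalize (a + 2) * r ^ h * (p * D) * ℓ = X3 at *
  omega

theorem cst_big {p a h k : ℕ} (hp : 2 ≤ p) : 2 ^ 60 ≤ cst p a h ^ (k + 1) := by
  have h1 : 2 ^ 60 ≤ cst p a h := by
    unfold cst
    have h2 := one_le_cst1 (a := a) (h := h) hp
    have h3 : 2 ^ 60 ≤ 2 ^ (45 * (p + 1)) := Nat.pow_le_pow_right (by norm_num) (by omega)
    calc 2 ^ 60 ≤ 1 * 2 ^ (45 * (p + 1)) := by rw [one_mul]; exact h3
      _ ≤ _ := Nat.mul_le_mul_right _ (by omega)
  exact h1.trans (Nat.le_self_pow (Nat.succ_ne_zero k) _)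

theorem n_big {X Y n n1 : ℕ} (h1 : 2 ^ 60 ≤ X) (h2 : X ≤ Y) (h3 : Y ≤ n)
    (h4 : n ≤ 2 * n1 + 1) : 2 ^ 45 * 60 ≤ n1 := by
  omega

set_option maxHeartbeats 4000000 in
/-- Exponential lower bound for refutations whose lines have boundedly nested disjunctions and
`MOD_p` gates above equations of low degree, where every disjunction has few disjuncts that are
not equations. -/
theorem par_lower (p : ℕ) (hp : p.Prime) :
    ∃ (c : ℕ) (F : ℕ → List Clause),
      (∀ n, (∀ C ∈ F n, C.length ≤ c * Nat.log 2 (n + 2) ∧ ∀ l ∈ C, l.1 < n) ∧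
        (F n).length ≤ (n + 2) ^ c ∧ Unsat (F n)) ∧
      ∀ a h : ℕ, ∃ C : ℕ, ∀ n k t : ℕ,
        C ^ (k + 1) * (t + 1) ^ (h + 1) * (Nat.log 2 n + 1) ≤ n → ∀ π : List Fm,
        SemRefutation p a (F n) π → (∀ A ∈ π, A.heightOver (Fm.IsEqn p k) ≤ h + 1) →
        (∀ (m : ℕ) (f : Fin m → Fm), ¬ (Fm.or m f).IsEqn p k →
          (∃ A ∈ π, Fm.IsSub (Fm.or m f) A) →
            {B | B ∈ Set.range f ∧ ¬ B.IsEqn p k}.ncard ≤ t) →
        2 ^ (n / (C ^ (k + 1) * (t + 1) ^ h)) ≤ numOrNot (Fm.IsEqn p k) π := by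
  have : Fact p.Prime := ⟨hp⟩
  obtain ⟨q, hq, hqp, hq3⟩ : ∃ q : ℕ, q.Prime ∧ q ≠ p ∧ q ≤ 3 := by
    by_cases h : p = 2
    · exact ⟨3, Nat.prime_three, by omega, le_refl _⟩
    · exact ⟨2, Nat.prime_two, fun h' => h h'.symm, by norm_num⟩
  have : Fact q.Prime := ⟨hq⟩
  have hq2 := hq.two_le
  have hne : ((q : ℕ) : ZMod p) ≠ 0 := by
    rw [Ne, ZMod.natCast_eq_zero_iff]
    intro h
    exact hqp ((Nat.prime_dvd_prime_iff_eq hp hq).1 h).symm
  have : NeZero ((q : ℕ) : ZMod p) := ⟨hne⟩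
  obtain ⟨ζ, hζ⟩ := HasEnoughRootsOfUnity.exists_primitiveRoot (AlgebraicClosure (ZMod p)) q
  have hψ := AddChar.zmodChar_primitive_of_primitive_root q hζ
  set ψ := AddChar.zmodChar q ((IsPrimitiveRoot.iff_def ζ q).mp hζ).left with hψdef
  have hqK : ((q : ℕ) : AlgebraicClosure (ZMod p)) ≠ 0 := by
    intro h
    apply hne
    have := (algebraMap (ZMod p) (AlgebraicClosure (ZMod p))).injective
    apply this
    simpa using h
  -- the formulas
  have main : ∀ n, ∃ F : List Clause,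
      ((∀ C ∈ F, C.length ≤ 129 * Nat.log 2 (n + 2) ∧ ∀ l ∈ C, l.1 < n) ∧
        F.length ≤ (n + 2) ^ 129 ∧ Unsat F) ∧
      (1 ≤ n / (q - 1) → ∃ (f : Fin (n / (q - 1) + 1) × Fin (16 * par (n / (q - 1))) →
          Fin (n / (q - 1))) (rhs : Fin (n / (q - 1) + 1) → ZMod q), F = sysW q f rhs ∧
          ∀ S : Finset (Fin (n / (q - 1) + 1)), S.Nonempty →
            S.card * (16 * par (n / (q - 1))) * 2 ^ 32 ≤ n / (q - 1) →
              S.card * (15 * par (n / (q - 1))) ≤ (nb f S).card) := by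
    intro n
    set n1 := n / (q - 1) with hn1
    have hn1n : n1 ≤ n := Nat.div_le_self _ _
    by_cases hn : 1 ≤ n1
    · obtain ⟨f, hf⟩ := exists_logExp (m := n1 + 1) (n := n1) (V := par n1) (by omega) (by
        refine (le_pow_par n1).trans ?_
        apply Nat.pow_le_pow_right (by norm_num)
        omega)
      obtain ⟨rhs, hrhs⟩ := exists_rhsW (q := q) f
      refine ⟨sysW q f rhs, ⟨?_, ?_, unsat_sysW hrhs⟩, fun _ => ⟨f, rhs, rfl, hf⟩⟩
      · intro C hC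
        rw [mem_sysW] at hC
        obtain ⟨r, a, _, rfl⟩ := hC
        refine ⟨?_, ?_⟩
        · rw [length_rowClW]
          have h1 := par_le_log n1
          have h2 : Nat.log 2 (n1 + 2) ≤ Nat.log 2 (n + 2) := Nat.log_mono_right (by omega)
          have h3 : 16 * par n1 * (q - 1) ≤ 16 * par n1 * 2 := Nat.mul_le_mul_left _ (by omega)
          omega
        · intro l hl
          rw [mem_rowClW] at hl
          obtain ⟨t, j, rfl⟩ := hl
          exact lt_of_lt_of_le (bitVar_lt hq2 (f (r, t)).isLt j.isLt) (Nat.div_mul_le_self _ _)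
      · refine length_sysW.trans ?_
        have h1 : 2 ^ (16 * par n1 * (q - 1)) ≤ 2 ^ (par n1 * 32) :=
          Nat.pow_le_pow_right (by norm_num) (by
            have h3 : 16 * par n1 * (q - 1) ≤ 16 * par n1 * 2 := Nat.mul_le_mul_left _ (by omega)
            omega)
        have h2 : 2 ^ (par n1 * 32) ≤ (8 * (n1 + 1)) ^ 32 := by
          rw [pow_mul]
          exact Nat.pow_le_pow_left (pow_par_le n1) 32
        have h3 : (8 * (n1 + 1)) ^ 32 ≤ (n + 2) ^ 128 := by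
          have h4 : 8 * (n1 + 1) ≤ (n + 2) ^ 4 := by
            have h5 : 2 ^ 3 ≤ (n + 2) ^ 3 := Nat.pow_le_pow_left (by omega) 3
            calc 8 * (n1 + 1) ≤ 2 ^ 3 * (n + 2) := by omega
              _ ≤ (n + 2) ^ 3 * (n + 2) := Nat.mul_le_mul_right _ h5
              _ = (n + 2) ^ 4 := by ring
          calc (8 * (n1 + 1)) ^ 32 ≤ ((n + 2) ^ 4) ^ 32 := Nat.pow_le_pow_left h4 32
            _ = (n + 2) ^ 128 := by rw [← pow_mul]
        calc (n1 + 1) * 2 ^ (16 * par n1 * (q - 1)) ≤ (n + 2) * (n + 2) ^ 128 :=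
              Nat.mul_le_mul (by omega) (h1.trans (h2.trans h3))
          _ = (n + 2) ^ 129 := by ring
    · refine ⟨[[]], ⟨?_, ?_, ?_⟩, fun h => absurd h hn⟩
      · intro C hC
        rw [List.mem_singleton] at hC
        subst hC
        simp
      · simp only [List.length_singleton]
        exact Nat.one_le_pow _ _ (by omega)
      · intro v
        exact ⟨[], by simp, by simp⟩
  choose F hF1 hF2 using main
  refine ⟨129, F, hF1, ?_⟩
  intro a h
  refine ⟨cst p a h, ?_⟩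
  intro n k t hn π hπ hh ht
  have hp2 := hp.two_le
  set n1 := n / (q - 1) with hn1
  have hq1 : 0 < q - 1 := by omega
  have hnn1 : n ≤ 2 * n1 + 1 := by
    have h1 : n < (n1 + 1) * (q - 1) := by
      have := Nat.lt_div_mul_add (a := n) hq1
      rw [← hn1] at this
      calc n < n1 * (q - 1) + (q - 1) := this
        _ = (n1 + 1) * (q - 1) := by ring
    have h2 : (n1 + 1) * (q - 1) ≤ (n1 + 1) * 2 := Nat.mul_le_mul_left _ (by omega)
    omega
  have hn1n : n1 ≤ n := Nat.div_le_self _ _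
  have hCt : cst p a h ^ (k + 1) * (t + 1) ^ (h + 1) ≤ n := by
    refine le_trans ?_ hn
    exact Nat.le_mul_of_pos_right _ (Nat.succ_pos _)
  have hCC : cst p a h ^ (k + 1) ≤ cst p a h ^ (k + 1) * (t + 1) ^ (h + 1) :=
    Nat.le_mul_of_pos_right _ (Nat.pow_pos (Nat.succ_pos _))
  have hn1big : 2 ^ 45 * 60 ≤ n1 := n_big (cst_big hp2) hCC hCt hnn1
  obtain ⟨f, rhs, hFeq, hf⟩ := hF2 n (by rw [← hn1]; exact le_trans (by norm_num) hn1big)
  rw [hFeq] at hπ
  have hV1 := one_le_par n1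
  have hVn := par_small hn1big
  have hW := W_ge hV1 hVn
  set D := (p - 1) * k + 1 with hD
  have hDle : D ≤ p * (k + 1) := by
    have h1 : (p - 1) * k ≤ p * k := Nat.mul_le_mul_right _ (Nat.sub_le _ _)
    have h2 : p * (k + 1) = p * k + p := by ring
    rw [hD, h2]
    omega
  have hD1 : 1 ≤ D := by rw [hD]; exact Nat.le_add_left 1 _
  have hE := E_le (a := a) (h := h) (t := t) hp2 hDle
  have hn4 : n ≤ 4 * n1 := by
    have : 1 ≤ n1 := le_trans (by norm_num) hn1big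
    omega
  set W := n1 / (2 ^ 37 * par n1) * par n1 with hWdef
  have hEW : 16 * ((a + 2) * (t + p) ^ (h + 1) * D) ≤ W := chain hE hCt hn4 hW
  set G := (a + 2) * (t + p) ^ h * (p * D) with hG
  have hG1 : 1 ≤ G := by
    rw [hG]
    have h1 : 0 < (t + p) ^ h := Nat.pow_pos (by omega)
    exact Nat.mul_pos (Nat.mul_pos (by omega) h1) (Nat.mul_pos (by omega) hD1)
  have hGW : 16 * G ≤ W := by
    refine le_trans ?_ hEW
    apply Nat.mul_le_mul_left
    rw [hG, pow_succ]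
    calc (a + 2) * (t + p) ^ h * (p * D) = (a + 2) * ((t + p) ^ h * p) * D := by ring
      _ ≤ (a + 2) * ((t + p) ^ h * (t + p)) * D := by
          apply Nat.mul_le_mul_right
          apply Nat.mul_le_mul_left
          exact Nat.mul_le_mul_left _ (by omega)
  obtain ⟨hl1, hl2⟩ := ell_cond hG1 hGW
  set ℓ := W / (8 * G) with hℓ
  obtain ⟨hw1, hT4⟩ := w1_arith (T := n1 / 2 ^ 41 + 2) rfl hW hVn hn1big
  have hw2 := w2_arith (a := a) hT4 (Mdeg_le (D := D) (L := ℓ * ((p - 1) * D))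
    (r := t + p) (by omega) h) hEW hl1
  have hq2' : (2 : ℝ) ≤ q := by exact_mod_cast hq2
  have hq3' : (q : ℝ) ≤ 3 := by exact_mod_cast hq3
  have hcore := core_par (p := p) (a := a) (ℓ := ℓ) (t := t) (h := h) hψ hqK hV1 hVn
    (le_pow_par n1) f rhs hf (Fm.IsEqn p k) hD1 (fun B hB =>
      (chrFilt ψ n1).mono (by rw [hD]; omega) (rfn_eqn_mem (enc_mem ψ hψ hqK) hB))
    (y := (1 / 2 : ℝ) ^ 22) (by positivity) (by
      have h1 : ((q : ℝ) * (1 / 2 : ℝ) ^ 22) ≤ 3 * (1 / 2 : ℝ) ^ 22 :=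
        mul_le_mul_of_nonneg_right hq3' (by positivity)
      have h2 : 0 ≤ (q : ℝ) * (1 / 2 : ℝ) ^ 22 := by positivity
      calc ((q : ℝ) * (1 / 2 : ℝ) ^ 22) ^ 2 ≤ (3 * (1 / 2 : ℝ) ^ 22) ^ 2 :=
            pow_le_pow_left₀ h2 h1 2
        _ ≤ 1 / 2 := by norm_num) hq3 (tail_cond hq2 hq3) hw1 hw2 hπ hh ht
  refine final_count (T := n1 / 2 ^ 41 + 2) hp2 hDle hn hn4 ?_ (hW.trans ?_) hcore
  · have : n1 / 2 ^ 41 ≤ n1 / 2 := Nat.div_le_div_left (by norm_num) (by norm_num)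
    have h60 : 60 ≤ n1 := le_trans (by norm_num) hn1big
    omega
  · exact Nat.mul_le_mul_left _ hl2

end Pool.Agent.Helper21.Par
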