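import Pool.Agent.Helper21.Par.Sim
import Pool.Agent.Helper21.Par.ExistsP
import Pool.Agent.Helper21.AC0p.Core

/-!
The combinatorial core.
-/

namespace Pool.Agent.Helper21.Par

open scoped BigOperators Classical
open Pool.Agent.Helper21.AC0p Pool.Agent.Helper21.Lin

section Err

variable {X K : Type} [Fintype X] [Field K] {𝔉 : Filt X K} {p : ℕ} {v : X → ℕ → Bool} {z : ℝ}

/-- The error set of a disjunction. -/
theorem exists_err [hp : Fact p.Prime] [CharP K p] (hz0 : 0 ≤ z) (hz1 : z < 1) (S : Fm → Prop)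
    {D : ℕ} (hS : ∀ B, S B → rfn K p v B ∈ 𝔉.LD D) (ℓ : ℕ) (A : Fm) :
    ∃ Er : Set X, Hw 𝔉 z Er ≤ (1 - z ^ D / 2) ^ ℓ * Hw 𝔉 z Set.univ ∧
      ∀ P : X → K, (∀ x ∈ Er, P x = 0) → ThetaFor 𝔉 P p v S (ℓ * ((p - 1) * D)) A := by
  have htriv : ∀ A : Fm, (∀ (k : ℕ) (f : Fin k → Fm), A ≠ Fm.or k f) →
      ∃ Er : Set X, Hw 𝔉 z Er ≤ (1 - z ^ D / 2) ^ ℓ * Hw 𝔉 z Set.univ ∧
      ∀ P : X → K, (∀ x ∈ Er, P x = 0) → ThetaFor 𝔉 P p v S (ℓ * ((p - 1) * D)) A := by
    intro A hA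
    refine ⟨∅, ?_, fun P _ => ⟨fun k f h => absurd h (hA k f)⟩⟩
    have h00 : ∀ t, HF (𝔉.LD t) (∅ : Set X) = 0 := by
      intro t
      unfold HF evs
      rw [Set.image_empty, Submodule.span_empty]
      exact finrank_bot K _
    have h0 : Hw 𝔉 z (∅ : Set X) = 0 := by
      simp [Hw, h00]
    rw [h0]
    apply mul_nonneg _ (Hw_nonneg hz0 _)
    apply pow_nonneg
    have : z ^ D ≤ 1 := pow_le_one₀ hz0 hz1.le
    linarith
  cases A with
  | var i => exact htriv _ (fun k f h => by cases h)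
  | neg A => exact htriv _ (fun k f h => by cases h)
  | mod k f => exact htriv _ (fun k f h => by cases h)
  | or k0 f0 =>
    obtain ⟨θ, hθD, hθ1, hθE⟩ := approx_zero (p := p) (𝔉 := 𝔉) hz0 hz1
      ((Finset.univ.image f0).filter S) (fun B => rfn K p v B) (fun B _ x => rfn_01 B x)
      (fun B hB => hS B (Finset.mem_filter.1 hB).2) ℓ
    refine ⟨_, hθE, ?_⟩
    intro P hP
    refine ⟨?_⟩
    intro k f h
    cases h
    refine ⟨θ, hθD, ?_⟩
    funext x
    simp only [Pi.mul_apply, Finset.prod_apply, Pi.sub_apply, Pi.one_apply]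
    by_cases hx : ∃ B ∈ (Finset.univ.image f0).filter S, rfn K p v B x ≠ 0
    · obtain ⟨B, hB, hBx⟩ := hx
      have hB1 : rfn K p v B x = 1 := (rfn_01 B x).resolve_left hBx
      rw [Finset.prod_eq_zero hB (by rw [hB1, sub_self]), mul_zero]
      by_cases hθx : θ x = 0
      · rw [hθx, mul_zero]
      · rw [hP x ⟨⟨B, hB, hBx⟩, hθx⟩, zero_mul]
    · push Not at hx
      rw [hθ1 x hx, Finset.prod_eq_one]
      intro B hB
      rw [hx B hB, sub_zero]

end Err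

section Core

variable {q n : ℕ} [hq : Fact q.Prime] {K : Type} [Field K] {ψ : AddChar (ZMod q) K}

theorem core_par {p : ℕ} [hp : Fact p.Prime] [CharP K p] (hψ : ψ.IsPrimitive)
    (hqK : (q : K) ≠ 0) {a V T D ℓ h t : ℕ} (hV1 : 1 ≤ V) (hVn : 2 ^ 45 * V ≤ n)
    (hpow : 4 * (n + 1) ≤ 2 ^ V)
    (f : Fin (n + 1) × Fin (16 * V) → Fin n) (rhs : Fin (n + 1) → ZMod q)
    (hf : ∀ S : Finset (Fin (n + 1)), S.Nonempty → S.card * (16 * V) * 2 ^ 32 ≤ n →
      S.card * (15 * V) ≤ (nb f S).card)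
    (S : Fm → Prop) (hD : 1 ≤ D) (hS : ∀ B, S B → rfn K p (enc q) B ∈ (chrFilt ψ n).LD D)
    {y : ℝ} (hy0 : 0 < y) (hqy : ((q : ℝ) * y) ^ 2 ≤ 1 / 2) (hq3 : q ≤ 3)
    (hT : 2 * (1 + (q - 1) * (2 * y ^ 2)) ^ n ≤ (2 : ℝ) ^ T)
    (hw1 : T + 16 * V ≤ n / (2 ^ 37 * V) * V)
    (hw2 : T + (a + 2) * Mdeg D (ℓ * ((p - 1) * D)) (t + p) (h + 1) ≤
      n / (2 ^ 37 * V) * V)
    {π : List Fm} (hπ : SemRefutation p a (sysW q f rhs) π)
    (hh : ∀ A ∈ π, A.heightOver S ≤ h + 1)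
    (ht : ∀ (k : ℕ) (g : Fin k → Fm), ¬ S (Fm.or k g) → (∃ A ∈ π, Fm.IsSub (Fm.or k g) A) →
      {B | B ∈ Set.range g ∧ ¬ S B}.ncard ≤ t) :
    1 ≤ 16 * ((T : ℝ) + 1) ^ 2 * (numOrNot S π * (1 - (y ^ 2) ^ D / 2) ^ ℓ) := by
  have hq2 : (2 : ℝ) ≤ q := by exact_mod_cast hq.out.two_le
  set ρ := n / (2 ^ 37 * V) with hρ
  have hden : 0 < 2 ^ 37 * V := by positivity
  have hρV : 2 ^ 8 ≤ ρ := by
    rw [hρ, Nat.le_div_iff_mul_le hden]
    calc 2 ^ 8 * (2 ^ 37 * V) = 2 ^ 45 * V := by ring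
      _ ≤ n := hVn
  have hρ1 : 1 ≤ ρ := le_trans (by norm_num) hρV
  have hρn : 2 * ρ * (16 * V) * 2 ^ 32 ≤ n := by
    have h1 : ρ * (2 ^ 37 * V) ≤ n := Nat.div_mul_le_self _ _
    calc 2 * ρ * (16 * V) * 2 ^ 32 = ρ * (2 ^ 37 * V) := by ring
      _ ≤ n := h1
  have hw : 2 * (16 * V) ≤ ρ * V := by
    calc 2 * (16 * V) = 32 * V := by ring
      _ ≤ ρ * V := Nat.mul_le_mul_right _ (le_trans (by norm_num) hρV)
  have hal : ∀ r, 4 * V ≤ ((nb f {r}).filter (fun _ => (true : Bool) = true)).card := by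
    intro r
    have h1 := hf {r} (Finset.singleton_nonempty r) (by
      rw [Finset.card_singleton]
      calc 1 * (16 * V) * 2 ^ 32 = 2 ^ 36 * V := by ring
        _ ≤ 2 ^ 45 * V := Nat.mul_le_mul_right _ (by norm_num)
        _ ≤ n := hVn)
    rw [Finset.card_singleton] at h1
    simp only [Finset.filter_true]
    omega
  have hE : Expands (matW q f (fun _ => true)) ρ (ρ * V) :=
    expands_matW f (fun _ => true) hV1 hρ1 hρn (le_refl _) hf hal
  -- weight of combinations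
  have hwt : ∀ u : Fin (n + 1) → ZMod q, hammingNorm u ≤ ρ →
      hammingNorm u * (2 * V) ≤ hammingNorm (comb (matW q f (fun _ => true)) u) := by
    intro u hu
    set Su := Finset.univ.filter (fun r => u r ≠ 0) with hSu
    have hSc : Su.card = hammingNorm u := rfl
    by_cases hne : Su.Nonempty
    · have h1 : Su.card * (15 * V) ≤ (nb f Su).card := by
        apply hf Su hne
        refine le_trans ?_ hρn
        apply Nat.mul_le_mul_right
        apply Nat.mul_le_mul_right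
        rw [hSc]; omega
      have h2 := uniq_card f (fun _ => true) Su h1 (fun r _ => hal r)
      rw [hSc] at h2
      refine h2.trans ?_
      unfold hammingNorm
      apply Finset.card_le_card
      intro i hi
      rw [Finset.mem_filter]
      exact ⟨Finset.mem_univ _, comb_uniq f (fun _ => true) u hi⟩
    · rw [Finset.not_nonempty_iff_eq_empty] at hne
      rw [← hSc, hne]
      simp
  set z : ℝ := y ^ 2 with hz
  have hqy0 : 0 < (q : ℝ) * y := by positivity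
  have hqy1 : (q : ℝ) * y ≤ 1 := by
    by_contra hcon
    push Not at hcon
    nlinarith
  have hz12 : z ≤ 1 / 2 := by
    have h1 : z ≤ (q * y) ^ 2 := by
      rw [hz, mul_pow]
      have : (1 : ℝ) ≤ (q : ℝ) ^ 2 := by nlinarith
      have h0 : 0 ≤ y ^ 2 := by positivity
      nlinarith
    linarith
  have hz0 : 0 ≤ z := by positivity
  have hz1 : z < 1 := by linarith
  set x : ℝ := ((q : ℝ) * y) ^ (2 * V) with hx
  have hx0 : 0 ≤ x := by positivity
  have hxu : ∀ u, hammingNorm u ≤ ρ →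
      ((q : ℝ) * y) ^ hammingNorm (comb (matW q f (fun _ => true)) u) ≤ x ^ hammingNorm u := by
    intro u hu
    rw [hx, ← pow_mul]
    apply pow_le_pow_of_le_one hqy0.le hqy1
    rw [mul_comm]
    exact hwt u hu
  have hxV : x ≤ (1 / 2 : ℝ) ^ V := by
    rw [hx, pow_mul]
    exact pow_le_pow_left₀ (by positivity) hqy V
  have hxm : (1 + ((q : ℝ) - 1) * x) ^ (n + 1) ≤ 2 := by
    have hq3' : (q : ℝ) ≤ 3 := by exact_mod_cast hq3
    have h5 : (4 * ((n + 1 : ℕ) : ℝ)) ≤ 2 ^ V := by exact_mod_cast hpow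
    have h7 : (1 / 2 : ℝ) ^ V * 2 ^ V = 1 := by rw [← mul_pow]; norm_num
    have h8 : 4 * ((n + 1 : ℕ) : ℝ) * x ≤ 1 := by
      calc 4 * ((n + 1 : ℕ) : ℝ) * x ≤ 2 ^ V * (1 / 2 : ℝ) ^ V :=
            mul_le_mul h5 hxV hx0 (by positivity)
        _ = 1 := by rw [mul_comm]; exact h7
    have h9 : 1 + ((q : ℝ) - 1) * x ≤ Real.exp (2 * x) := by
      have h10 := Real.add_one_le_exp (2 * x)
      have h11 : ((q : ℝ) - 1) * x ≤ 2 * x := mul_le_mul_of_nonneg_right (by linarith) hx0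
      linarith
    have h12 : 0 ≤ 1 + ((q : ℝ) - 1) * x := by
      have : 0 ≤ ((q : ℝ) - 1) * x := mul_nonneg (by linarith) hx0
      linarith
    calc (1 + ((q : ℝ) - 1) * x) ^ (n + 1) ≤ (Real.exp (2 * x)) ^ (n + 1) :=
          pow_le_pow_left₀ h12 h9 _
      _ = Real.exp (((n + 1 : ℕ) : ℝ) * (2 * x)) := by rw [← Real.exp_nat_mul]
      _ ≤ Real.exp (1 / 2) := by
          apply Real.exp_le_exp.2
          linarith
      _ ≤ 2 := by
          have h2 : Real.exp (1 / 2) * Real.exp (1 / 2) = Real.exp 1 := by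
            rw [← Real.exp_add]; norm_num
          have h3 := Real.exp_one_lt_d9
          have h4 := Real.exp_pos (1 / 2)
          nlinarith
  -- the error sets
  have hch := exists_err (𝔉 := chrFilt ψ n) (p := p) (v := enc q) (z := z) hz0 hz1 S hS ℓ
  choose Er hEr hErP using hch
  have hfin : {B : Fm | (∃ (k : ℕ) (g : Fin k → Fm), B = Fm.or k g) ∧ ¬ S B ∧
    ∃ A ∈ π, Fm.IsSub B A}.Finite := by
    apply (finite_subs π).subset
    rintro B ⟨_, _, hB⟩
    exact hB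
  have hcard : hfin.toFinset.card = numOrNot S π := by
    unfold numOrNot
    rw [Set.ncard_eq_toFinset_card _ hfin]
  by_contra hcon
  push Not at hcon
  have hδ0 : 0 ≤ (1 - z ^ D / 2) ^ ℓ := by
    apply pow_nonneg
    have : z ^ D ≤ 1 := pow_le_one₀ hz0 hz1.le
    linarith
  obtain ⟨P, hPT, hP0, hPv⟩ := exists_P (ψ := ψ) (b := rhs) hψ hqK hE (T := T)
    (by omega) hy0 (by rw [← hz]; exact hz12) hT hx0 hxu hxm hfin.toFinset Er
    (δ := (1 - z ^ D / 2) ^ ℓ) (fun A _ => hEr A) hδ0 (by rw [hcard]; exact hcon)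
  -- the simulation
  refine no_sem_refutation_mod (van_closed (b := rhs) hψ hE) hPT hPv ?_ hw2 hπ ?_ (v := enc q)
    (p := p)
  · intro C hC
    obtain ⟨h1, h2⟩ := rowcl_van hψ hqK p f rhs hw hE hC
    have e : P * (1 - rfn K p (enc q) (clauseFm C)) =
        (1 - rfn K p (enc q) (clauseFm C)) * P := mul_comm _ _
    rw [e]
    exact h1.mul hψ hE h2 hPT (by omega)
  · intro A hA
    have hr1 : 1 ≤ t + p := by have := hp.out.two_le; omega
    refine (lowMod_fm (𝔉 := chrFilt ψ n) (P := P) S hD (enc_mem ψ hψ hqK) hS ?_ ht A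
      ⟨A, hA, Fm.IsSub.refl⟩).mono (Mdeg_mono hr1 (hh A hA))
    intro B hB hBsub
    by_cases hor : ∃ (k : ℕ) (g : Fin k → Fm), B = Fm.or k g
    · exact hErP B P (hP0 B (hfin.mem_toFinset.2 ⟨hor, hB, hBsub⟩))
    · exact ⟨fun k g h => absurd ⟨k, g, h⟩ hor⟩

end Core

end Pool.Agent.Helper21.Par
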