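import Pool.Agent.Helper21.Par.LowMod
import Pool.Agent.Helper21.Lin.SemSim

/-!
Simulation of semantic derivations modulo a function `P`.
-/

namespace Pool.Agent.Helper21.Par

open scoped BigOperators Classical
open Pool.Agent.Helper21.AC0p Pool.Agent.Helper21.Lin

section Sim

variable {X K : Type} [Field K]

/-- A space of functions closed under multiplication in degree `w`. -/
structure Closed (𝔉 : Filt X K) (w : ℕ) (N : (X → K) → Prop) : Prop where
  zero : N 0
  add : ∀ {f g}, N f → N g → N (f + g)
  mul : ∀ {f g a b}, N f → f ∈ 𝔉.LD a → g ∈ 𝔉.LD b → a + b ≤ w → N (f * g)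

variable {𝔉 : Filt X K} {w : ℕ} {N : (X → K) → Prop} {P : X → K} {p : ℕ} {v : X → ℕ → Bool}

theorem sim_step (hN : Closed 𝔉 w N) {T M : ℕ} (hP : P ∈ 𝔉.LD T) : ∀ (L : List Fm),
    (∀ B ∈ L, N (P * (1 - rfn K p v B)) ∧ LowMod 𝔉 P M (rfn K p v B)) →
    ∀ (e : X → K) (D' : ℕ), LowMod 𝔉 P D' e →
      e * (L.map (fun B => rfn K p v B)).prod = 0 → T + M + D' + L.length * M ≤ w →
      N (P * e) := by
  intro L
  induction L with
  | nil =>
    intro _ e D' _ he _
    rw [List.map_nil, List.prod_nil, mul_one] at he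
    rw [he, mul_zero]
    exact hN.zero
  | cons B L ih =>
    intro hL e D' he0 he hw
    rw [List.length_cons, Nat.add_mul, one_mul] at hw
    obtain ⟨hB, hBM⟩ := hL B (List.mem_cons_self ..)
    have e1 : P * e = P * (1 - rfn K p v B) * e + P * (e * rfn K p v B) := by ring
    rw [e1]
    refine hN.add ?_ ?_
    · obtain ⟨e', he', hee'⟩ := he0
      obtain ⟨g, hg, hgg⟩ := hBM
      have h1 : P * (1 - rfn K p v B) ∈ 𝔉.LD (T + M) := by
        have h2 : P * (1 - rfn K p v B) = P * (1 - g) := by
          rw [mul_sub, mul_sub, hgg]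
        rw [h2]
        exact 𝔉.mul_mem hP (Submodule.sub_mem _ (𝔉.one_mem' _) hg)
      have h3 : P * (1 - rfn K p v B) * e = P * (1 - rfn K p v B) * e' := by
        calc P * (1 - rfn K p v B) * e = (P * e) * (1 - rfn K p v B) := by ring
          _ = (P * e') * (1 - rfn K p v B) := by rw [hee']
          _ = P * (1 - rfn K p v B) * e' := by ring
      rw [h3]
      exact hN.mul hB h1 he' (by omega)
    · refine ih (fun C hC => hL C (List.mem_cons_of_mem _ hC)) (e * rfn K p v B) (D' + M)
        (he0.mul hBM) ?_ (by omega)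
      rw [List.map_cons, List.prod_cons] at he
      rw [mul_assoc]
      exact he

theorem sem_sim_mod (hN : Closed 𝔉 w N) {T M a : ℕ} (hP : P ∈ 𝔉.LD T) {F : List Clause}
    (hF : ∀ C ∈ F, N (P * (1 - rfn K p v (clauseFm C))))
    (hw : T + (a + 2) * M ≤ w) {π : List Fm} (h : SemDerivation p a F π)
    (hM : ∀ A ∈ π, LowMod 𝔉 P M (rfn K p v A)) :
    ∀ A ∈ π, N (P * (1 - rfn K p v A)) := by
  induction h with
  | nil => intro A hA; simp at hA
  | @clause π C _ hC ih =>
    intro A hA
    rw [List.mem_cons] at hA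
    rcases hA with rfl | hA
    · exact hF C hC
    · exact ih (fun B hB => hM B (List.mem_cons_of_mem _ hB)) A hA
  | @imp π B L _ hL hLπ himp ih =>
    intro A hA
    rw [List.mem_cons] at hA
    rcases hA with rfl | hA
    · have ih' := ih (fun B hB => hM B (List.mem_cons_of_mem _ hB))
      have h1 : T + M + M + L.length * M ≤ w := by
        have h2 : L.length * M ≤ a * M := Nat.mul_le_mul_right _ hL
        have h3 : (a + 2) * M = a * M + M + M := by ring
        omega
      refine sim_step (M := M) hN hP L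
        (fun C hC => ⟨ih' C (hLπ C hC), hM C (List.mem_cons_of_mem _ (hLπ C hC))⟩)
        (1 - rfn K p v A) M (hM A (List.mem_cons_self ..)).one_sub ?_ h1
      funext x
      simp only [Pi.mul_apply, Pi.sub_apply, Pi.one_apply, Pi.zero_apply]
      by_cases hx : A.eval p (v x) = true
      · rw [rfn_apply, if_pos hx]; ring
      · have h4 : ¬ ∀ B ∈ L, B.eval p (v x) = true := by
          intro hall
          exact hx (himp _ hall)
        push Not at h4
        obtain ⟨B, hB, hBx⟩ := h4
        have h5 : (L.map (fun B => rfn K p v B)).prod x = 0 := by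
          have e2 : (L.map (fun B => rfn K p v B)).prod x =
              (L.map (fun B => rfn K p v B x)).prod := by
            have := map_list_prod (Pi.evalMonoidHom (fun _ : X => K) x)
              (L.map (fun B => rfn K p v B))
            simp only [Pi.evalMonoidHom_apply, List.map_map] at this
            rw [this]
            rfl
          rw [e2]
          apply List.prod_eq_zero
          rw [List.mem_map]
          refine ⟨B, hB, ?_⟩
          rw [rfn_apply, if_neg hBx]
        rw [h5, mul_zero]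
    · exact ih (fun B hB => hM B (List.mem_cons_of_mem _ hB)) A hA

/-- No semantic refutation has all lines of low degree modulo `P`. -/
theorem no_sem_refutation_mod (hN : Closed 𝔉 w N) {T M a : ℕ} (hP : P ∈ 𝔉.LD T)
    (hPN : ¬ N P) {F : List Clause}
    (hF : ∀ C ∈ F, N (P * (1 - rfn K p v (clauseFm C))))
    (hw : T + (a + 2) * M ≤ w) {π : List Fm} (h : SemRefutation p a F π)
    (hM : ∀ A ∈ π, LowMod 𝔉 P M (rfn K p v A)) : False := by
  have h1 := sem_sim_mod hN hP hF hw h.1 hM _ h.2
  have h2 : rfn K p v (Fm.orL []) = 0 := by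
    funext x
    rw [rfn_apply]
    simp [Fm.orL, Fm.eval]
  rw [h2, sub_zero, mul_one] at h1
  exact hPN h1

end Sim

section VanClosed

variable {q n m : ℕ} [hq : Fact q.Prime] {K : Type} [Field K] {ψ : AddChar (ZMod q) K}
variable {M : Fin m → Fin n → ZMod q} {b : Fin m → ZMod q} {ρ w : ℕ}

theorem van_closed (hψ : ψ.IsPrimitive) (hE : Expands M ρ w) :
    Closed (chrFilt ψ n) w (Van ψ M b ρ w) where
  zero := Van.zero
  add := fun hf hg => hf.add hg
  mul := fun hf ha hb hab => hf.mul hψ hE ha hb hab

end VanClosed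

section Axioms

variable {q n m W : ℕ} [hq : Fact q.Prime] {K : Type} [Field K] {ψ : AddChar (ZMod q) K}

/-- Row clauses are functions of few columns. -/
theorem rowcl_mem (hψ : ψ.IsPrimitive) (hqK : (q : K) ≠ 0) (p : ℕ)
    (f : Fin m × Fin W → Fin n) (r : Fin m) (a : Fin W → Fin (q - 1) → Bool) :
    1 - rfn K p (enc q) (clauseFm (rowClW q f r a)) ∈ (chrFilt ψ n).LD W := by
  have h := rst_clause_mem (ψ := ψ) p (fun _ => (true, 0)) f r a hψ hqK
  have e : rst K p (nog q n) (fun _ => (true, 0)) (clauseFm (rowClW q f r a)) =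
      rfn K p (enc q) (clauseFm (rowClW q f r a)) := by
    unfold rst rfn
    congr 1
  rw [e] at h
  exact h

theorem sum_matW_all (f : Fin m × Fin W → Fin n) (x : Fin n → ZMod q) (r : Fin m) :
    ∑ i, matW q f (fun _ => true) r i * x i = ∑ t, x (f (r, t)) := by
  have h2 : ∀ i, matW q f (fun _ => true) r i * x i =
      ∑ t, (if f (r, t) = i then x i else 0) := by
    intro i
    unfold matW
    rw [if_pos rfl, Finset.sum_mul]
    refine Finset.sum_congr rfl (fun t _ => ?_)
    split_ifs <;> simp
  rw [Finset.sum_congr rfl (fun i _ => h2 i), Finset.sum_comm]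
  refine Finset.sum_congr rfl (fun t _ => ?_)
  rw [Finset.sum_ite_eq]
  simp

/-- Row clauses vanish in the pseudo-solution. -/
theorem rowcl_van (hψ : ψ.IsPrimitive) (hqK : (q : K) ≠ 0) (p : ℕ)
    (f : Fin m × Fin W → Fin n) (rhs : Fin m → ZMod q) {ρ w : ℕ} (hw : 2 * W ≤ w)
    (hE : Expands (matW q f (fun _ => true)) ρ w) {C : Clause} (hC : C ∈ sysW q f rhs) :
    Van ψ (matW q f (fun _ => true)) rhs ρ w (1 - rfn K p (enc q) (clauseFm C)) ∧
      1 - rfn K p (enc q) (clauseFm C) ∈ (chrFilt ψ n).LD W := by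
  have hq2 := hq.out.two_le
  rw [mem_sysW] at hC
  obtain ⟨r, a, ha, rfl⟩ := hC
  refine ⟨?_, rowcl_mem hψ hqK p f r a⟩
  refine Van.of_vanish hψ hqK hE hw (rowcl_mem hψ hqK p f r a) (r := r)
    (fun j => matW_weight f _ r j) ?_
  intro x hx
  rw [sum_matW_all] at hx
  have htrue : (clauseFm (rowClW q f r a)).eval p (enc q x) = true := by
    rw [eval_clauseFm]
    by_contra hcon
    push Not at hcon
    apply ha
    rw [← hx]
    unfold asgW
    refine Finset.sum_congr rfl (fun t _ => ?_)
    rw [← sum_enc (x (f (r, t)))]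
    refine Finset.sum_congr rfl (fun j _ => ?_)
    have h4 := hcon (bitVar q (f (r, t)).val j.val, !(a t j)) (mem_rowClW.2 ⟨t, j, rfl⟩)
    simp only at h4
    rw [enc_bitVar hq2] at h4
    have h5 : a t j = decide (j.val < (x (f (r, t))).val) := by
      cases h6 : a t j <;> cases h7 : decide (j.val < (x (f (r, t))).val) <;>
        simp_all
    rw [h5]
  rw [Pi.sub_apply, Pi.one_apply, rfn_apply, if_pos htrue, sub_self]

end Axioms

end Pool.Agent.Helper21.Par
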